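import Pool.Agent.CRW.W2
import Pool.Agent.CRN.A3

/-!
# [CRW] The inner bodies in a fine window
-/

set_option autoImplicit false
open MeasureTheory Set
open Pool.Agent.XA Pool.Agent.CRN

namespace Pool.Agent.CRW

/-- separation of compact convex sets -/
theorem sep_two {A B : Set (ℝ × ℝ)} (hA : IsCompact A) (cA : Convex ℝ A) (hB : IsCompact B)
    (cB : Convex ℝ B) (h : Disjoint A B) :
    ∃ ν, ∀ p ∈ A, ∀ q ∈ B, lv ν p < lv ν q := by
  obtain ⟨f, u, v, hf1, huv, hf2⟩ := geometric_hahn_banach_compact_closed cA hA cB hB.isClosed h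
  have hlin : ∀ x : ℝ × ℝ, f x = x.1 * f (1, 0) + x.2 * f (0, 1) := by
    intro x
    have h1 : x = x.1 • ((1 : ℝ), (0 : ℝ)) + x.2 • ((0 : ℝ), (1 : ℝ)) := by
      ext <;> simp
    conv_lhs => rw [h1]
    rw [map_add, map_smul, map_smul, smul_eq_mul, smul_eq_mul]
  set z : ℂ := ⟨f (1, 0), f (0, 1)⟩ with hz
  have hA' : ‖z‖ * Real.cos z.arg = f (1, 0) := Complex.norm_mul_cos_arg z
  have hB' : ‖z‖ * Real.sin z.arg = f (0, 1) := Complex.norm_mul_sin_arg z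
  have hlv : ∀ x : ℝ × ℝ, f x = ‖z‖ * lv z.arg x := by
    intro x
    rw [hlin x, ← hA', ← hB']
    unfold lv
    ring
  refine ⟨z.arg, fun p hp q hq => ?_⟩
  have h1 := ((hf1 p hp).trans huv).trans (hf2 q hq)
  rw [hlv, hlv] at h1
  exact lt_of_mul_lt_mul_left h1 (norm_nonneg z)

theorem seg_level {M : Set (ℝ × ℝ)} (hM : Convex ℝ M) {θ c : ℝ} {x y : ℝ × ℝ} (hx : x ∈ M)
    (hy : y ∈ M) (h1 : lv θ x ≤ c) (h2 : c ≤ lv θ y) : ∃ p ∈ M, lv θ p = c := by
  rcases eq_or_lt_of_le (h1.trans h2) with h | h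
  · exact ⟨x, hx, by linarith⟩
  · have hd : 0 < lv θ y - lv θ x := by linarith
    refine ⟨x + ((c - lv θ x) / (lv θ y - lv θ x)) • (y - x), hM.add_smul_sub_mem hx hy
      ⟨div_nonneg (by linarith) hd.le, ?_⟩, ?_⟩
    · rw [div_le_one hd]
      linarith
    · rw [lv_add, lv_smul, lv_sub]
      field_simp
      ring

/-- the data of a fine window `[x, y]` -/
structure Fw (P Q : Set (ℝ × ℝ)) (x y d η κ : ℝ) (x₀ : ℝ × ℝ) : Prop where
  bP : IsBody P
  bQ : IsBody Q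
  xy : x < y
  yη : y ≤ x + η
  ηπ : η < Real.pi
  dd : ∀ v ∈ P ∪ Q, ∀ w ∈ P ∪ Q, ∀ ψ, lv ψ (v - w) ≤ d
  hκ : 8 * (d * η) < κ
  ex : hs P x = hs Q x
  ey : hs P y = hs Q y
  xP : x₀ ∈ P
  xQ : x₀ ∈ Q
  low : lv x x₀ ≤ hs P x - κ / 2

variable {P Q : Set (ℝ × ℝ)} {x y d η κ : ℝ} {x₀ : ℝ × ℝ}

theorem Fw.symm (h : Fw P Q x y d η κ x₀) : Fw Q P x y d η κ x₀ :=
  ⟨h.bQ, h.bP, h.xy, h.yη, h.ηπ, fun v hv w hw => h.dd v hv.symm w hw.symm, h.hκ, h.ex.symm,
    h.ey.symm, h.xQ, h.xP, by rw [← h.ex]; exact h.low⟩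

theorem Fw.d0 (h : Fw P Q x y d η κ x₀) : 0 ≤ d := by
  have := h.dd x₀ (Or.inl h.xP) x₀ (Or.inl h.xP) 0
  rw [sub_self] at this
  simpa [lv] using this

theorem Fw.η0 (h : Fw P Q x y d η κ x₀) : 0 < η := by linarith [h.xy, h.yη]

theorem Fw.dη (h : Fw P Q x y d η κ x₀) : 0 ≤ d * η := mul_nonneg h.d0 h.η0.le

theorem Fw.var (h : Fw P Q x y d η κ x₀) {v w : ℝ × ℝ} (hv : v ∈ P ∪ Q) (hw : w ∈ P ∪ Q)
    {θ θ' : ℝ} (hθ : θ ∈ Icc x y) (hθ' : θ' ∈ Icc x y) :
    lv θ v - lv θ w - d * η ≤ lv θ' v - lv θ' w := by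
  have h1 := lv_var (v := v - w) (h.dd v hv w hw) θ' θ
  rw [lv_sub, lv_sub] at h1
  have h2 : |θ' - θ| ≤ η := by
    rw [abs_le]
    constructor <;> linarith [hθ.1, hθ.2, hθ'.1, hθ'.2, h.yη]
  have h3 := mul_le_mul_of_nonneg_left h2 h.d0
  linarith

theorem Fw.mx (h : Fw P Q x y d η κ x₀) : x ∈ Icc x y := ⟨le_refl _, h.xy.le⟩

theorem Fw.my (h : Fw P Q x y d η κ x₀) : y ∈ Icc x y := ⟨h.xy.le, le_refl _⟩

/-- a high common point -/
theorem Fw.high (h : Fw P Q x y d η κ x₀) : ∃ p, p ∈ P ∧ p ∈ Q ∧ hs P x - κ / 2 ≤ lv x p := by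
  have hκ := h.hκ
  have hd := h.dη
  obtain ⟨zx, hzx, ezx⟩ := exists_lv_eq_hs h.bP.compact (h.bP.nonempty.mono interior_subset) x
  obtain ⟨zy, hzy, ezy⟩ := exists_lv_eq_hs h.bP.compact (h.bP.nonempty.mono interior_subset) y
  obtain ⟨qx, hqx, eqx⟩ := exists_lv_eq_hs h.bQ.compact (h.bQ.nonempty.mono interior_subset) x
  obtain ⟨qy, hqy, eqy⟩ := exists_lv_eq_hs h.bQ.compact (h.bQ.nonempty.mono interior_subset) y
  have hex := h.ex
  have hey := h.ey
  by_contra hcon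
  push Not at hcon
  have hcl : IsClosed {w : ℝ × ℝ | hs P x - κ / 2 ≤ lv x w} :=
    isClosed_le continuous_const (continuous_lv_right x)
  have hcv : Convex ℝ {w : ℝ × ℝ | hs P x - κ / 2 ≤ lv x w} := by
    intro v hv w hw a b ha hb hab
    show hs P x - κ / 2 ≤ lv x (a • v + b • w)
    rw [lv_add, lv_smul, lv_smul]
    have h1 : a * (hs P x - κ / 2) ≤ a * lv x v := mul_le_mul_of_nonneg_left hv ha
    have h2 : b * (hs P x - κ / 2) ≤ b * lv x w := mul_le_mul_of_nonneg_left hw hb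
    have h3 : hs P x - κ / 2 = a * (hs P x - κ / 2) + b * (hs P x - κ / 2) := by
      rw [← add_mul, hab, one_mul]
    linarith
  obtain ⟨p1, hp1, ep1⟩ := seg_level h.bP.convex h.xP hzx h.low (by linarith)
  obtain ⟨q1, hq1, eq1⟩ := seg_level h.bQ.convex h.xQ hqx h.low (by linarith)
  have vzy := h.var (Or.inl hzy) (Or.inl hzx) h.my h.mx
  have vqy := h.var (Or.inr hqy) (Or.inr hqx) h.my h.mx
  have l1 := lv_le_hs h.bP.compact y hzx
  have l2 := lv_le_hs h.bQ.compact y hqx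
  have l3 := lv_le_hs h.bP.compact x hzy
  have l4 := lv_le_hs h.bQ.compact x hqy
  obtain ⟨ν, hν⟩ := sep_two (A := P ∩ {w | hs P x - κ / 2 ≤ lv x w})
    (B := Q ∩ {w | hs P x - κ / 2 ≤ lv x w}) (h.bP.compact.inter_right hcl)
    (h.bP.convex.inter hcv) (h.bQ.compact.inter_right hcl) (h.bQ.convex.inter hcv)
    (by
      rw [Set.disjoint_left]
      rintro w ⟨hw1, hw2⟩ ⟨hw3, -⟩
      have := hcon w hw1 hw3
      have hw2' : hs P x - κ / 2 ≤ lv x w := hw2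
      linarith)
  have mzx : zx ∈ P ∩ {w | hs P x - κ / 2 ≤ lv x w} :=
    ⟨hzx, show hs P x - κ / 2 ≤ lv x zx by linarith⟩
  have mzy : zy ∈ P ∩ {w | hs P x - κ / 2 ≤ lv x w} :=
    ⟨hzy, show hs P x - κ / 2 ≤ lv x zy by linarith⟩
  have mqx : qx ∈ Q ∩ {w | hs P x - κ / 2 ≤ lv x w} :=
    ⟨hqx, show hs P x - κ / 2 ≤ lv x qx by linarith⟩
  have mqy : qy ∈ Q ∩ {w | hs P x - κ / 2 ≤ lv x w} :=
    ⟨hqy, show hs P x - κ / 2 ≤ lv x qy by linarith⟩
  have s0 := sin_pos' h.xy (by linarith [h.yη, h.ηπ] : y < x + Real.pi)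
  have e1 := lv_comb x ν y (qx - zy)
  have e2 := lv_comb x ν y (qy - zx)
  have e3 := lv_comb x ν y (zx - q1)
  have e4 := lv_comb x ν y (qx - p1)
  simp only [lv_sub] at e1 e2 e3 e4
  have n1 := hν zy mzy qx mqx
  have n2 := hν zx mzx qy mqy
  have n3 := hν zx mzx q1 ⟨hq1, eq1.ge⟩
  have n4 := hν p1 ⟨hp1, ep1.ge⟩ qx mqx
  have v3 := h.var (Or.inl hzx) (Or.inr hq1) h.mx h.my
  have v4 := h.var (Or.inr hqx) (Or.inl hp1) h.mx h.my
  set A := Real.sin (y - ν) with hA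
  set B := Real.sin (ν - x) with hB
  have p1' : 0 < Real.sin (y - x) * (lv ν qx - lv ν zy) := mul_pos s0 (by linarith)
  have p2' : 0 < Real.sin (y - x) * (lv ν qy - lv ν zx) := mul_pos s0 (by linarith)
  have p3' : 0 < Real.sin (y - x) * (lv ν q1 - lv ν zx) := mul_pos s0 (by linarith)
  have p4' : 0 < Real.sin (y - x) * (lv ν qx - lv ν p1) := mul_pos s0 (by linarith)
  have a1 : 0 ≤ lv x qx - lv x zy := by linarith
  have b1 : lv y qx - lv y zy ≤ 0 := by linarith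
  have a2 : lv x qy - lv x zx ≤ 0 := by linarith
  have b2 : 0 ≤ lv y qy - lv y zx := by linarith
  have a3 : 0 < lv x zx - lv x q1 := by linarith
  have b3 : 0 < lv y zx - lv y q1 := by linarith
  have a4 : 0 < lv x qx - lv x p1 := by linarith
  have b4 : 0 < lv y qx - lv y p1 := by linarith
  rcases le_or_gt A 0 with hA0 | hA0
  · rcases le_or_gt 0 B with hB0 | hB0
    · have m1 := mul_nonpos_of_nonpos_of_nonneg hA0 a1
      have m2 := mul_nonpos_of_nonneg_of_nonpos hB0 b1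
      linarith
    · have m1 := mul_nonpos_of_nonpos_of_nonneg hA0 a4.le
      have m2 := mul_neg_of_neg_of_pos hB0 b4
      linarith
  · rcases le_or_gt B 0 with hB0 | hB0
    · have m1 := mul_nonpos_of_nonneg_of_nonpos hA0.le a2
      have m2 := mul_nonpos_of_nonpos_of_nonneg hB0 b2
      linarith
    · have m1 := mul_pos hA0 a3
      have m2 := mul_pos hB0 b3
      linarith

/-- a common point at the level `hs P x - κ / 2` -/
theorem Fw.common (h : Fw P Q x y d η κ x₀) :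
    ∃ p, p ∈ P ∧ p ∈ Q ∧ lv x p = hs P x - κ / 2 := by
  obtain ⟨p, hp, hq, hl⟩ := h.high
  obtain ⟨r, hr, e⟩ := seg_level (h.bP.convex.inter h.bQ.convex) ⟨h.xP, h.xQ⟩ ⟨hp, hq⟩ h.low hl
  exact ⟨r, hr.1, hr.2, e⟩

/-- the cone above `p` -/
def Rp (x y : ℝ) (p : ℝ × ℝ) : Set (ℝ × ℝ) := {w | lv x p ≤ lv x w ∧ lv y p ≤ lv y w}

theorem Rp_closed (x y : ℝ) (p : ℝ × ℝ) : IsClosed (Rp x y p) :=
  (isClosed_le continuous_const (continuous_lv_right x)).inter
    (isClosed_le continuous_const (continuous_lv_right y))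

theorem Rp_convex (x y : ℝ) (p : ℝ × ℝ) : Convex ℝ (Rp x y p) := by
  have key : ∀ (θ : ℝ) (v w : ℝ × ℝ) (a b : ℝ), 0 ≤ a → 0 ≤ b → a + b = 1 → lv θ p ≤ lv θ v →
      lv θ p ≤ lv θ w → lv θ p ≤ lv θ (a • v + b • w) := by
    intro θ v w a b ha hb hab hv hw
    rw [lv_add, lv_smul, lv_smul]
    have h1 : a * lv θ p ≤ a * lv θ v := mul_le_mul_of_nonneg_left hv ha
    have h2 : b * lv θ p ≤ b * lv θ w := mul_le_mul_of_nonneg_left hw hb
    have h3 : lv θ p = a * lv θ p + b * lv θ p := by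
      rw [← add_mul, hab, one_mul]
    linarith
  intro v hv w hw a b ha hb hab
  exact ⟨key x v w a b ha hb hab hv.1 hw.1, key y v w a b ha hb hab hv.2 hw.2⟩

theorem isBody_inter_Rp {M : Set (ℝ × ℝ)} (hM : IsBody M) {p z : ℝ × ℝ} (hz : z ∈ M)
    (h1 : lv x p < lv x z) (h2 : lv y p < lv y z) : IsBody (M ∩ Rp x y p) := by
  refine ⟨hM.compact.inter_right (Rp_closed x y p), hM.convex.inter (Rp_convex x y p), ?_⟩
  obtain ⟨w, hw⟩ := hM.nonempty
  have hc : Continuous fun t : ℝ => z + t • (w - z) := by fun_prop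
  have hO : IsOpen {v : ℝ × ℝ | lv x p < lv x v ∧ lv y p < lv y v} :=
    (isOpen_lt continuous_const (continuous_lv_right x)).inter
      (isOpen_lt continuous_const (continuous_lv_right y))
  have h0 : (fun t : ℝ => z + t • (w - z)) 0 ∈ {v : ℝ × ℝ | lv x p < lv x v ∧ lv y p < lv y v} := by
    simp only [zero_smul, add_zero]
    exact ⟨h1, h2⟩
  have h3 := hc.continuousAt.preimage_mem_nhds (hO.mem_nhds h0)
  obtain ⟨ε, hε, hb⟩ := Metric.mem_nhds_iff.1 h3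
  set t := min (ε / 2) 1 with ht
  have ht0 : 0 < t := lt_min (by linarith) one_pos
  have ht1 : t ≤ 1 := min_le_right _ _
  have htε : t < ε := (min_le_left _ _).trans_lt (by linarith)
  have h4 : t ∈ Metric.ball (0 : ℝ) ε := by
    rw [Metric.mem_ball, Real.dist_eq, sub_zero, abs_of_pos ht0]
    exact htε
  have h5 : z + t • (w - z) ∈ {v : ℝ × ℝ | lv x p < lv x v ∧ lv y p < lv y v} := hb h4
  have h6 : z + t • (w - z) ∈ interior M := by
    have := hM.convex.combo_interior_self_mem_interior hw hz ht0 (by linarith : 0 ≤ 1 - t)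
      (by ring : t + (1 - t) = 1)
    have e : z + t • (w - z) = t • w + (1 - t) • z := by
      rw [smul_sub, sub_smul, one_smul]
      abel
    rw [e]
    exact this
  refine ⟨z + t • (w - z), mem_interior.2 ⟨interior M ∩ {v | lv x p < lv x v ∧ lv y p < lv y v},
    fun v hv => ⟨interior_subset hv.1, hv.2.1.le, hv.2.2.le⟩, isOpen_interior.inter hO, h6, h5⟩⟩

/-- the bottom of a truncated body -/
theorem hs_bot_Rp {M : Set (ℝ × ℝ)} (hM : IsCompact M) {p : ℝ × ℝ} (hp : p ∈ M) (hxy : x < y)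
    (hyπ : y < x + Real.pi) {θ : ℝ} (hθ : θ ∈ Icc x y) :
    hs (M ∩ Rp x y p) (θ + Real.pi) = -lv θ p := by
  have hp' : p ∈ M ∩ Rp x y p := ⟨hp, le_refl _, le_refl _⟩
  refine le_antisymm (hs_le ⟨p, hp'⟩ fun w hw => ?_) ?_
  · rw [lv_add_pi]
    have h1 := lv_comb x θ y (w - p)
    simp only [lv_sub] at h1
    have s0 := sin_pos' hxy hyπ
    have s1 : 0 ≤ Real.sin (y - θ) :=
      Real.sin_nonneg_of_nonneg_of_le_pi (by linarith [hθ.2]) (by linarith [hθ.1])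
    have s2 : 0 ≤ Real.sin (θ - x) :=
      Real.sin_nonneg_of_nonneg_of_le_pi (by linarith [hθ.1]) (by linarith [hθ.2])
    have m1 := mul_nonneg s1 (sub_nonneg.2 hw.2.1)
    have m2 := mul_nonneg s2 (sub_nonneg.2 hw.2.2)
    have h3 : 0 ≤ Real.sin (y - x) * (lv θ w - lv θ p) := by linarith
    have h4 := nonneg_of_mul_nonneg_right h3 s0
    linarith
  · rw [← lv_add_pi]
    exact lv_le_hs (hM.inter_right (Rp_closed x y p)) _ hp'

/-- levels relative to the common point -/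
theorem Fw.levels (h : Fw P Q x y d η κ x₀) {p : ℝ × ℝ} (hp : p ∈ P)
    (ep : lv x p = hs P x - κ / 2) {θ : ℝ} (hθ : θ ∈ Icc x y) :
    lv θ p + (κ / 2 - d * η) ≤ hs P θ ∧ hs P θ ≤ lv θ p + (κ / 2 + d * η) := by
  obtain ⟨zx, hzx, ezx⟩ := exists_lv_eq_hs h.bP.compact (h.bP.nonempty.mono interior_subset) x
  obtain ⟨z, hz, ez⟩ := exists_lv_eq_hs h.bP.compact (h.bP.nonempty.mono interior_subset) θ
  have h1 := h.var (Or.inl hzx) (Or.inl hp) h.mx hθ
  have h2 := lv_le_hs h.bP.compact θ hzx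
  have h3 := h.var (Or.inl hz) (Or.inl hp) hθ h.mx
  have h4 := lv_le_hs h.bP.compact x hz
  constructor <;> linarith

/-- the support function of the truncated body -/
theorem Fw.hs_Rp (h : Fw P Q x y d η κ x₀) {p : ℝ × ℝ} (hp : p ∈ P)
    (ep : lv x p = hs P x - κ / 2) {θ : ℝ} (hθ : θ ∈ Icc x y) :
    hs (P ∩ Rp x y p) θ = hs P θ := by
  have hκ := h.hκ
  have hd := h.dη
  obtain ⟨z, hz, ez⟩ := exists_lv_eq_hs h.bP.compact (h.bP.nonempty.mono interior_subset) θ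
  have h1 := (h.levels hp ep hθ).1
  have h2 := h.var (Or.inl hz) (Or.inl hp) hθ h.mx
  have h3 := h.var (Or.inl hz) (Or.inl hp) hθ h.my
  have hz' : z ∈ P ∩ Rp x y p := ⟨hz, by linarith, by linarith⟩
  refine le_antisymm (hs_le ⟨z, hz'⟩ fun w hw => lv_le_hs h.bP.compact θ hw.1) ?_
  rw [← ez]
  exact lv_le_hs (h.bP.compact.inter_right (Rp_closed x y p)) θ hz'

theorem Fw.body (h : Fw P Q x y d η κ x₀) {p : ℝ × ℝ} (hp : p ∈ P)
    (ep : lv x p = hs P x - κ / 2) : IsBody (P ∩ Rp x y p) := by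
  have hκ := h.hκ
  have hd := h.dη
  obtain ⟨zx, hzx, ezx⟩ := exists_lv_eq_hs h.bP.compact (h.bP.nonempty.mono interior_subset) x
  have h1 := h.var (Or.inl hzx) (Or.inl hp) h.mx h.my
  exact isBody_inter_Rp h.bP hzx (by linarith) (by linarith)

theorem Fw.slice (h : Fw P Q x y d η κ x₀) {p : ℝ × ℝ} (hp : p ∈ P) {θ c : ℝ}
    (hθ : θ ∈ Icc x y) (hc : lv θ p + d * η ≤ c) :
    {t : ℝ | pt θ c t ∈ P ∩ Rp x y p} = {t : ℝ | pt θ c t ∈ P} := by
  ext t
  refine ⟨fun ht => ht.1, fun ht => ⟨ht, ?_, ?_⟩⟩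
  · have h2 := h.var (Or.inl ht) (Or.inl hp) hθ h.mx
    rw [lv_pt] at h2
    linarith
  · have h2 := h.var (Or.inl ht) (Or.inl hp) hθ h.my
    rw [lv_pt] at h2
    linarith

/-- **The inner bodies have the same support function in the fine window.** -/
theorem pq_block {N : ℕ} (hN : 5 ≤ N) {s : ℕ → ℝ} (hs' : Slopes N s) {i0 : ℤ}
    (h : Fw P Q (ang N s i0) (ang N s (i0 + 164)) d η κ x₀)
    (top : ∀ i, 0 ≤ i → i ≤ 164 → hs P (ang N s (i0 + i)) = hs Q (ang N s (i0 + i)))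
    (hvis : ∀ i, 0 ≤ i → i ≤ 164 → ∀ c, hs P (ang N s (i0 + i)) - κ < c →
      volume {t : ℝ | pt (ang N s (i0 + i)) c t ∈ interior P} =
        volume {t : ℝ | pt (ang N s (i0 + i)) c t ∈ interior Q}) :
    ∀ ψ ∈ Icc (ang N s i0) (ang N s (i0 + 164)), hs P ψ = hs Q ψ := by
  have hN0 : 0 < N := by omega
  have hmono := (ang_strictMono hN0 hs').monotone
  have hκ := h.hκ
  have hd := h.dη
  obtain ⟨p, hpP, hpQ, ep⟩ := h.common
  have epQ : lv (ang N s i0) p = hs Q (ang N s i0) - κ / 2 := by rw [ep, h.ex]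
  have mem : ∀ i : ℤ, 0 ≤ i → i ≤ 164 →
      ang N s (i0 + i) ∈ Icc (ang N s i0) (ang N s (i0 + 164)) := fun i h0 h1 =>
    ⟨hmono (by omega), hmono (by omega)⟩
  have hspan : ang N s (i0 + 164) < ang N s i0 + Real.pi := by linarith [h.yη, h.ηπ]
  have hdη : d * (ang N s (i0 + 164) - ang N s i0) ≤ d * η :=
    mul_le_mul_of_nonneg_left (by linarith [h.yη]) h.d0
  have key := lc hN hs' (h.body hpP ep) (h.symm.body hpQ epQ) (d := d) (i0 := i0)
    (c := fun i => lv (ang N s (i0 + i)) p + d * η)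
    (by
      rintro v (hv | hv) w (hw | hw) ψ
      · exact h.dd v (Or.inl hv.1) w (Or.inl hw.1) ψ
      · exact h.dd v (Or.inl hv.1) w (Or.inr hw.1) ψ
      · exact h.dd v (Or.inr hv.1) w (Or.inl hw.1) ψ
      · exact h.dd v (Or.inr hv.1) w (Or.inr hw.1) ψ)
    hspan
    (by
      intro i h0 h1
      have hi := mem i h0 h1
      refine ⟨h.body hpP ep, h.symm.body hpQ epQ, ?_, ?_, ?_⟩
      · rw [h.hs_Rp hpP ep hi, h.symm.hs_Rp hpQ epQ hi]
        exact top i h0 h1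
      · rw [hs_bot_Rp h.bP.compact hpP h.xy hspan hi, hs_bot_Rp h.bQ.compact hpQ h.xy hspan hi]
      · intro c hc g1 g2
        rw [h.hs_Rp hpP ep hi] at g2
        rw [h.slice hpP hi hc, h.symm.slice hpQ hi hc]
        have k1 := neg_hs_le_lv h.bP.compact (ang N s (i0 + i)) hpP
        have k2 := neg_hs_le_lv h.bQ.compact (ang N s (i0 + i)) hpQ
        have g1' : lv (ang N s (i0 + i)) p < c := by
          rw [hs_bot_Rp h.bP.compact hpP h.xy hspan hi] at g1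
          linarith
        rw [← vol_interior_eq h.bP (by linarith) g2,
          ← vol_interior_eq h.bQ (by linarith) (by rw [← top i h0 h1]; exact g2)]
        have k3 := (h.levels hpP ep hi).2
        exact hvis i h0 h1 c (by linarith))
    (by
      intro i h0 h1
      have hi := mem i h0 h1
      rw [h.hs_Rp hpP ep hi]
      have k3 := (h.levels hpP ep hi).1
      linarith)
  intro ψ hψ
  have := key ψ hψ
  rwa [h.hs_Rp hpP ep hψ, h.symm.hs_Rp hpQ epQ hψ] at this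

end Pool.Agent.CRW
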