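import Pool.Agent.CRN.C1
import Pool.Agent.XA.V6

/-!
# [CRW] The centre of a disc in the hole
-/

set_option autoImplicit false
open MeasureTheory Set
open Pool.Agent.XA Pool.Agent.CRN

namespace Pool.Agent.CRW

theorem lv_near (x₀ : ℝ × ℝ) (θ ψ c t : ℝ) :
    lv ψ (pt θ (lv θ x₀ + c) (tg θ x₀ + t)) ≤ lv ψ x₀ + (|c| + |t|) := by
  rw [lv_pt', lv_eq ψ θ x₀]
  have h1 : c * Real.cos (ψ - θ) ≤ |c| := by
    refine (le_abs_self _).trans ?_
    rw [abs_mul]
    exact mul_le_of_le_one_right (abs_nonneg c) (Real.abs_cos_le_one _)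
  have h2 : t * Real.sin (ψ - θ) ≤ |t| := by
    refine (le_abs_self _).trans ?_
    rw [abs_mul]
    exact mul_le_of_le_one_right (abs_nonneg t) (Real.abs_sin_le_one _)
  linarith

/-- points near the centre of a disc -/
theorem mem_of_disc {P : Set (ℝ × ℝ)} (hP : IsBody P) {x₀ : ℝ × ℝ} {R : ℝ}
    (h : ∀ ψ, lv ψ x₀ + R ≤ hs P ψ) {θ c t : ℝ} (hct : |c| + |t| ≤ R) :
    pt θ (lv θ x₀ + c) (tg θ x₀ + t) ∈ P := by
  by_contra hcon
  obtain ⟨ψ, hψ⟩ := exists_sep hP hcon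
  have h1 := h ψ
  have h2 := lv_near x₀ θ ψ c t
  linarith

/-- **The centre of a disc in the hole of one annulus is in the hole of the other one.** -/
theorem centre_mem {K P L Q : Set (ℝ × ℝ)} (hK : IsBody K) (hP : IsBody P) (hL : IsBody L)
    (hQ : IsBody Q) (hPK : P ⊆ interior K) (hQL : Q ⊆ interior L) {x₀ : ℝ × ℝ} {R D ε : ℝ}
    (hR : 0 < R) (hε0 : 0 < ε) (hε1 : 8 * (D * ε) ≤ R) (hε2 : 4 * (D * (D * ε)) < R * R)
    (hdisc : ∀ ψ, lv ψ x₀ + R ≤ hs P ψ) (hclose : ∀ ψ, |hs K ψ - hs L ψ| ≤ 2 * D * ε)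
    (hw : ∀ ψ, hs K ψ + hs K (ψ + Real.pi) ≤ D)
    (hd : ∀ x ∈ K ∪ L, ∀ y ∈ K ∪ L, ∀ ψ, lv ψ (x - y) ≤ 2 * D)
    (hX : ∀ ψ, ∃ θ, |θ - ψ| ≤ ε ∧ ∀ c, volume {t : ℝ | pt θ c t ∈ K \ interior P} =
      volume {t : ℝ | pt θ c t ∈ L \ interior Q}) : x₀ ∈ Q := by
  by_contra hcon
  obtain ⟨ψ, hψ⟩ := exists_sep hQ hcon
  obtain ⟨θ, hθ, hXθ⟩ := hX ψ
  have hPKs : ∀ ψ, hs P ψ < hs K ψ := fun ψ => hs_lt_of_subset hK hP hPK ψ
  have hD : 0 < D := by
    have h1 := hw θ
    have h2 := hdisc θ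
    have h3 := hdisc (θ + Real.pi)
    have h4 := hPKs θ
    have h5 := hPKs (θ + Real.pi)
    rw [lv_add_pi] at h3
    linarith
  have hσ0 : 0 < D * ε := mul_pos hD hε0
  have hxP : x₀ ∈ P := by
    have h1 := mem_of_disc hP hdisc (θ := θ) (c := 0) (t := 0) (by simpa using hR.le)
    rw [add_zero, add_zero, pt_lv_tg] at h1
    exact h1
  have hxK : x₀ ∈ K := interior_subset (hPK hxP)
  -- the slice of `Q` is empty
  obtain ⟨y, hy, ey⟩ := exists_lv_eq_hs hQ.compact (hQ.nonempty.mono interior_subset) θ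
  have hQθ : hs Q θ < lv θ x₀ + 2 * D * ε := by
    have h1 := lv_le_hs hQ.compact ψ hy
    have h2 := lv_var (v := y - x₀) (hd y (Or.inr (interior_subset (hQL hy))) x₀ (Or.inl hxK)) ψ θ
    rw [lv_sub, lv_sub, abs_sub_comm] at h2
    have h3 : 2 * D * |θ - ψ| ≤ 2 * D * ε := mul_le_mul_of_nonneg_left hθ (by linarith)
    rw [← ey]
    linarith
  have hJ : len (interior Q) θ (lv θ x₀ + 2 * D * ε) = 0 := by
    unfold len
    rw [slice_interior_empty hQ hQθ]
    simp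
  -- the slice of `P` is long
  have hI1 := hdisc θ
  have hI2 := hdisc (θ + Real.pi)
  rw [lv_add_pi] at hI2
  have hσR : 2 * D * ε ≤ R / 4 := by linarith
  have hI : 2 * (R - 2 * D * ε) ≤ len (interior P) θ (lv θ x₀ + 2 * D * ε) := by
    rw [len_interior hP (by linarith) (by linarith)]
    have h1 : Icc (tg θ x₀ - (R - 2 * D * ε)) (tg θ x₀ + (R - 2 * D * ε)) ⊆
        {t : ℝ | pt θ (lv θ x₀ + 2 * D * ε) t ∈ P} := by
      intro t ht
      have h2 := mem_of_disc hP hdisc (θ := θ) (c := 2 * D * ε) (t := t - tg θ x₀) (by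
        rw [abs_of_nonneg (by linarith : 0 ≤ 2 * D * ε)]
        have : |t - tg θ x₀| ≤ R - 2 * D * ε := by
          rw [abs_le]
          constructor <;> linarith [ht.1, ht.2]
        linarith)
      rw [add_sub_cancel] at h2
      exact h2
    have h3 := ENNReal.toReal_mono (slice_lt_top hP.compact θ _).ne (measure_mono h1)
    rw [Real.volume_Icc, ENNReal.toReal_ofReal (by linarith)] at h3
    unfold len
    linarith
  have hdiff := len_diff hK.compact hL.compact isOpen_interior isOpen_interior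
    (interior_subset.trans (hPK.trans interior_subset))
    (interior_subset.trans (hQL.trans interior_subset)) (hXθ (lv θ x₀ + 2 * D * ε))
  rw [hJ, sub_zero] at hdiff
  -- the slices of `K` and `L` are almost equally long
  set x₁ := pt θ (lv θ x₀ + 2 * D * ε) (tg θ x₀ + 0) with hx₁
  have e1 : lv θ x₁ = lv θ x₀ + 2 * D * ε := lv_pt _ _ _
  have hincl : ∀ w ∈ K, x₁ + (1 + 2 * D * ε / (R / 2))⁻¹ • (w - x₁) ∈ L := by
    intro w hwK
    refine incl_of_hs hL (by linarith) (by linarith) (fun χ => ?_) (fun χ => ?_)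
    · have h1 := lv_near x₀ θ χ (2 * D * ε) 0
      rw [abs_of_nonneg (by linarith : 0 ≤ 2 * D * ε), abs_zero, ← hx₁] at h1
      have h2 := hdisc χ
      have h3 := hPKs χ
      have h4 := abs_le.1 (hclose χ)
      linarith [h4.2]
    · have h1 := lv_le_hs hK.compact χ hwK
      have h4 := abs_le.1 (hclose χ)
      linarith [h4.2]
  set μ := 2 * D * ε / (R / 2) with hμ
  have hμ0 : 0 ≤ μ := by rw [hμ]; positivity
  have hμR : μ * R = 4 * (D * ε) := by
    rw [hμ]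
    field_simp
    ring
  have hsc := scale_len hL.compact hμ0 hincl θ (lv θ x₀ + 2 * D * ε)
  rw [e1, sub_self, mul_zero, add_zero] at hsc
  have hA := len_le_width hK hw θ (lv θ x₀ + 2 * D * ε)
  set A := len K θ (lv θ x₀ + 2 * D * ε)
  set B := len L θ (lv θ x₀ + 2 * D * ε)
  set I := len (interior P) θ (lv θ x₀ + 2 * D * ε)
  have hBD : B ≤ D := by linarith
  have h1 : μ * B ≤ μ * D := mul_le_mul_of_nonneg_left hBD hμ0
  have h2 : I ≤ μ * D := by linarith
  have h3 : I * R ≤ μ * D * R := mul_le_mul_of_nonneg_right h2 hR.le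
  have h4 : μ * D * R = 4 * (D * (D * ε)) := by
    calc μ * D * R = D * (μ * R) := by ring
      _ = _ := by rw [hμR]; ring
  have h5 : R * R ≤ I * R := mul_le_mul_of_nonneg_right (by linarith) hR.le
  linarith

end Pool.Agent.CRW
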