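import Pool.Agent.CRW.W4

/-!
# [CRW] Unique continuation from a window
-/

set_option autoImplicit false
open MeasureTheory Set
open Pool.Agent.XA Pool.Agent.CRN

namespace Pool.Agent.CRW

/-- the four types of ends, not above the end points of the windows -/
def Te (K P : Set (ℝ × ℝ)) (Va Vb Ua Ub : ℝ × ℝ) (τ : Fin 4) (θ : ℝ) (x : ℝ × ℝ) : Prop :=
  (τ = 0 ∧ x ∈ K ∧ EndA K θ x ∧ lv θ x ≤ lv θ Va ∧ Va ∈ K) ∨
  (τ = 1 ∧ x ∈ K ∧ EndB K θ x ∧ lv θ x ≤ lv θ Vb ∧ Vb ∈ K) ∨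
  (τ = 2 ∧ x ∈ P ∧ EndA P θ x ∧ lv θ x ≤ lv θ Ua ∧ Ua ∈ P) ∨
  (τ = 3 ∧ x ∈ P ∧ EndB P θ x ∧ lv θ x ≤ lv θ Ub ∧ Ub ∈ P)

variable {K P L Q : Set (ℝ × ℝ)} {a b a' b' : ℝ} {Va Vb Ua Ub : ℝ × ℝ}

theorem te_id (f1 : Fr K L a b Va Vb) (f2 : Fr P Q a' b' Ua Ub) {τ : Fin 4} {θ θ' : ℝ}
    (h1 : θ < θ') (m1 : θ ∈ Ioo a b) (m1' : θ' ∈ Ioo a b) (m2 : θ ∈ Ioo a' b')
    (m2' : θ' ∈ Ioo a' b') {x x' : ℝ × ℝ} (h : Te K P Va Vb Ua Ub τ θ x)
    (h' : Te K P Va Vb Ua Ub τ θ' x') (c1 : lv θ x' ≤ lv θ x) (c2 : lv θ' x ≤ lv θ' x') :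
    x = x' := by
  rcases h with ⟨rfl, p1, p2, p3, p4⟩ | ⟨rfl, p1, p2, p3, p4⟩ | ⟨rfl, p1, p2, p3, p4⟩ |
    ⟨rfl, p1, p2, p3, p4⟩
  · rcases h' with ⟨-, q1, q2, q3, q4⟩ | ⟨h0, -⟩ | ⟨h0, -⟩ | ⟨h0, -⟩
    · exact f1.idA p4 h1 m1.1 m1'.2 p1 q1 p2 q2 p3 q3 c1 c2
    · exact absurd h0 (by decide)
    · exact absurd h0 (by decide)
    · exact absurd h0 (by decide)
  · rcases h' with ⟨h0, -⟩ | ⟨-, q1, q2, q3, q4⟩ | ⟨h0, -⟩ | ⟨h0, -⟩
    · exact absurd h0 (by decide)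
    · exact f1.idB p4 h1 m1.1 m1'.2 p1 q1 p2 q2 p3 q3 c1 c2
    · exact absurd h0 (by decide)
    · exact absurd h0 (by decide)
  · rcases h' with ⟨h0, -⟩ | ⟨h0, -⟩ | ⟨-, q1, q2, q3, q4⟩ | ⟨h0, -⟩
    · exact absurd h0 (by decide)
    · exact absurd h0 (by decide)
    · exact f2.idA p4 h1 m2.1 m2'.2 p1 q1 p2 q2 p3 q3 c1 c2
    · exact absurd h0 (by decide)
  · rcases h' with ⟨h0, -⟩ | ⟨h0, -⟩ | ⟨h0, -⟩ | ⟨-, q1, q2, q3, q4⟩
    · exact absurd h0 (by decide)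
    · exact absurd h0 (by decide)
    · exact absurd h0 (by decide)
    · exact f2.idB p4 h1 m2.1 m2'.2 p1 q1 p2 q2 p3 q3 c1 c2

/-- the type of an extreme point of the symmetric difference -/
theorem Fr.type (f : Fr K L a b Va Vb) {θ T : ℝ} (m : θ ∈ Ioo a b)
    (hN : ∀ w ∈ closure (SD K L), lv θ w ≤ T) (hT : T < hs K θ) {x : ℝ × ℝ}
    (hx : x ∈ closure (SD K L)) (ex : lv θ x = T)
    (hext : (∀ w ∈ closure (SD K L), lv θ w = T → tg θ x ≤ tg θ w) ∨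
      (∀ w ∈ closure (SD K L), lv θ w = T → tg θ w ≤ tg θ x)) :
    (x ∈ K ∧ EndA K θ x ∧ lv θ x ≤ lv θ Va ∧ Va ∈ K) ∨
      (x ∈ K ∧ EndB K θ x ∧ lv θ x ≤ lv θ Vb ∧ Vb ∈ K) := by
  have hTL : T < hs L θ := by rw [← f.eqv θ ⟨m.1.le, m.2.le⟩]; exact hT
  have hm := (mem_both f.bK f.bL hN hT hTL hx ex).1
  rcases ext_end f.bK f.bL hN hT hTL hx ex hext with h | h
  · have l := f.endA m hN hT hx ex h
    exact Or.inl ⟨hm, h, by rw [ex]; exact l, (f.mem_of_le m hN hT f.va' l).1⟩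
  · have l := f.endB m hN hT hx ex h
    exact Or.inr ⟨hm, h, by rw [ex]; exact l, (f.mem_of_le m hN hT f.vb' l).1⟩

/-- **Unique continuation.**  The outer bodies and the inner bodies have the same support functions in windows
containing seventeen angles with equal X-rays, at which all differences are strictly below the top of the inner
bodies: then there are no differences. -/
theorem uc (f1 : Fr K L a b Va Vb) (f2 : Fr P Q a' b' Ua Ub) (hPK : P ⊆ interior K)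
    (hQL : Q ⊆ interior L) {G : Finset ℝ} (hG : 17 ≤ G.card)
    (hX : ∀ θ ∈ G, ∀ c, volume {t : ℝ | pt θ c t ∈ K \ interior P} =
      volume {t : ℝ | pt θ c t ∈ L \ interior Q})
    (m1 : ∀ θ ∈ G, θ ∈ Ioo a b) (m2 : ∀ θ ∈ G, θ ∈ Ioo a' b')
    (c1 : ∀ θ ∈ G, ∃ c < hs P θ, ∀ w ∈ closure (SD K L), lv θ w ≤ c)
    (c2 : ∀ θ ∈ G, ∃ c < hs P θ, ∀ w ∈ closure (SD P Q), lv θ w ≤ c) : K = L ∧ P = Q := by
  classical
  by_cases hne : (closure (SD K L) ∪ closure (SD P Q)).Nonempty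
  · exfalso
    have hcomp : IsCompact (closure (SD K L) ∪ closure (SD P Q)) :=
      (isCompact_closure_SD f1.bK.compact f1.bL.compact).union
        (isCompact_closure_SD f2.bK.compact f2.bL.compact)
    have h0 : ∀ θ : ℝ, ∃ c : (ℝ × ℝ) × (ℝ × ℝ) × Fin 4 × Fin 4, θ ∈ G →
        (c.1 ∈ closure (SD K L) ∪ closure (SD P Q) ∧ c.2.1 ∈ closure (SD K L) ∪ closure (SD P Q) ∧
        lv θ c.1 = lv θ c.2.1 ∧ c.1 ≠ c.2.1 ∧
        (∀ w ∈ closure (SD K L) ∪ closure (SD P Q), lv θ w ≤ lv θ c.1) ∧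
          Te K P Va Vb Ua Ub c.2.2.1 θ c.1 ∧ Te K P Va Vb Ua Ub c.2.2.2 θ c.2.1) := by
      intro θ
      by_cases hθ : θ ∈ G
      · obtain ⟨T, hT, A, hA, B, hB, eA, eB, mA, mB⟩ := ext_pair hcomp hne θ
        have n1 := m1 θ hθ
        have n2 := m2 θ hθ
        have hTP : T < hs P θ := by
          rw [← eA]
          rcases hA with h | h
          · obtain ⟨c, g1, g2⟩ := c1 θ hθ
            exact (g2 A h).trans_lt g1
          · obtain ⟨c, g1, g2⟩ := c2 θ hθ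
            exact (g2 A h).trans_lt g1
        have hTQ : T < hs Q θ := by rw [← f2.eqv θ ⟨n2.1.le, n2.2.le⟩]; exact hTP
        have hTK : T < hs K θ := hTP.trans (hs_lt_of_subset f1.bK f2.bK hPK θ)
        have hTL : T < hs L θ := by rw [← f1.eqv θ ⟨n1.1.le, n1.2.le⟩]; exact hTK
        have hN1 : ∀ w ∈ closure (SD K L), lv θ w ≤ T := fun w hw => hT w (Or.inl hw)
        have hN2 : ∀ w ∈ closure (SD P Q), lv θ w ≤ T := fun w hw => hT w (Or.inr hw)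
        have hAB : A ≠ B := by
          intro h
          obtain ⟨w, hw, hwT, hwA⟩ := tie f1.bK f2.bK f1.bL f2.bL hPK hQL (hX θ hθ) hN1 hN2 hTK hTL
            hTP hTQ hA eA
          apply hwA
          refine eq_of_lv_tg (hwT.trans eA.symm) (le_antisymm ?_ (mA w hw hwT))
          rw [h]
          exact mB w hw hwT
        have type : ∀ x ∈ closure (SD K L) ∪ closure (SD P Q), lv θ x = T →
            ((∀ w ∈ closure (SD K L) ∪ closure (SD P Q), lv θ w = T → tg θ x ≤ tg θ w) ∨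
            (∀ w ∈ closure (SD K L) ∪ closure (SD P Q), lv θ w = T → tg θ w ≤ tg θ x)) →
            ∃ τ, Te K P Va Vb Ua Ub τ θ x := by
          intro x hx ex hext
          rcases hx with hx | hx
          · rcases f1.type n1 hN1 hTK hx ex
              (hext.imp (fun h w hw => h w (Or.inl hw)) (fun h w hw => h w (Or.inl hw))) with h | h
            · exact ⟨0, Or.inl ⟨rfl, h⟩⟩
            · exact ⟨1, Or.inr (Or.inl ⟨rfl, h⟩)⟩
          · rcases f2.type n2 hN2 hTP hx ex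
              (hext.imp (fun h w hw => h w (Or.inr hw)) (fun h w hw => h w (Or.inr hw))) with h | h
            · exact ⟨2, Or.inr (Or.inr (Or.inl ⟨rfl, h⟩))⟩
            · exact ⟨3, Or.inr (Or.inr (Or.inr ⟨rfl, h⟩))⟩
        obtain ⟨τ, hτ⟩ := type A hA eA (Or.inl mA)
        obtain ⟨τ', hτ'⟩ := type B hB eB (Or.inr mB)
        exact ⟨(A, B, τ, τ'), fun _ => ⟨hA, hB, eA.trans eB.symm, hAB,
          fun w hw => by rw [eA]; exact hT w hw, hτ, hτ'⟩⟩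
      · exact ⟨((0, 0), (0, 0), 0, 0), fun h => absurd h hθ⟩
    choose c hc using h0
    have hcard : (Finset.univ : Finset (Fin 4 × Fin 4)).card < G.card := by
      have : (Finset.univ : Finset (Fin 4 × Fin 4)).card = 16 := by decide
      omega
    obtain ⟨θ, hθ, θ', hθ', hne', he⟩ := Finset.exists_ne_map_eq_of_card_lt_of_maps_to
      (f := fun θ : ℝ => (c θ).2.2) hcard (fun _ _ => Finset.mem_coe.2 (Finset.mem_univ _))
    have key : ∀ θ ∈ G, ∀ θ' ∈ G, θ < θ' → (c θ).2.2 = (c θ').2.2 → False := by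
      intro θ hθ θ' hθ' hlt he
      obtain ⟨p1, p2, p3, p4, p5, p6, p7⟩ := hc θ hθ
      obtain ⟨q1, q2, q3, q4, q5, q6, q7⟩ := hc θ' hθ'
      rw [← he] at q6 q7
      have e1 := te_id f1 f2 hlt (m1 θ hθ) (m1 θ' hθ') (m2 θ hθ) (m2 θ' hθ') p6 q6 (p5 _ q1)
        (q5 _ p1)
      have e2 := te_id f1 f2 hlt (m1 θ hθ) (m1 θ' hθ') (m2 θ hθ) (m2 θ' hθ') p7 q7
        (by rw [← p3]; exact p5 _ q2) (by rw [← q3]; exact q5 _ p2)
      have hpi : θ' < θ + Real.pi := by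
        have := (m1 θ hθ).1
        have := (m1 θ' hθ').2
        linarith [f1.ltpi]
      exact p4 (eq_of_lv hlt hpi p3 (by rw [e1, e2, q3]))
    rcases lt_or_gt_of_ne hne' with h | h
    · exact key θ hθ θ' hθ' h he
    · exact key θ' hθ' θ hθ h he.symm
  · rw [not_nonempty_iff_eq_empty, union_empty_iff] at hne
    have key : ∀ A B : Set (ℝ × ℝ), closure (SD A B) = ∅ → A = B := by
      intro A B h
      ext w
      by_contra hw
      have : w ∈ closure (SD A B) := subset_closure hw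
      rw [h] at this
      exact this
    exact ⟨key K L hne.1, key P Q hne.2⟩

end Pool.Agent.CRW
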