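import Pool.Agent.XA.K0

/-!
# [CRW] Local chains

The combinatorial structure of the mirrors of a window `φ 0 < … < φ M` of angles, all arcs of the window being
good for all angles of the window.
-/

set_option autoImplicit false
open MeasureTheory Set
open Pool.Agent.XA

namespace Pool.Agent.CRW

/-- the local version of `Pool.Agent.XA.Comb` -/
structure LComb (M : ℤ) (φ f e : ℤ → ℝ) (AL : ℤ → ℤ → Prop) (Mi : ℤ → ℤ → ℤ → Prop)
    (z : ℤ → ℝ × ℝ) : Prop where
  φmono : StrictMono φ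
  span : φ M < φ 0 + Real.pi
  fmono : StrictMono f
  fabove : ∀ x, ∃ l, x < f l
  fbelow : ∀ x, ∃ l, f l < x
  fe : ∀ l, f l < e l
  ef : ∀ l, e l ≤ f (l + 1)
  sep : ∀ i l, 0 ≤ i → i ≤ M → φ i ≤ f l ∨ e l ≤ φ i
  nearL : ∀ i l, 0 ≤ i → i ≤ M → φ 0 ≤ f l → e l ≤ φ i → AL i l
  nearR : ∀ i r, 0 ≤ i → i ≤ M → φ i ≤ f r → e r ≤ φ M → AL i r
  mirL : ∀ i l, 0 ≤ i → i ≤ M → AL i l → e l ≤ φ i → ∃ r, Mi i l r
  mirR : ∀ i r, 0 ≤ i → i ≤ M → AL i r → φ i ≤ f r → ∃ l, Mi i l r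
  side : ∀ i l r, 0 ≤ i → i ≤ M → Mi i l r → e l ≤ φ i ∧ φ i ≤ f r
  good : ∀ i l r, 0 ≤ i → i ≤ M → Mi i l r → AL i l ∧ AL i r
  ord : ∀ i l r l' r', 0 ≤ i → i ≤ M → Mi i l r → Mi i l' r' → (l < l' ↔ r' < r)
  clL : ∀ i l l', 0 ≤ i → i ≤ M → AL i l → l < l' → e l' ≤ φ i → AL i l'
  clR : ∀ i r r', 0 ≤ i → i ≤ M → AL i r → r' < r → φ i ≤ f r' → AL i r'
  cent : ∀ i l r, 0 ≤ i → i ≤ M → Mi i l r → ∃ x : ℝ, 0 < x ∧ z r - z l = pt (φ i) 0 x

variable {M : ℤ} {φ f e : ℤ → ℝ} {AL : ℤ → ℤ → Prop} {Mi : ℤ → ℤ → ℤ → Prop} {z : ℤ → ℝ × ℝ}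

theorem LComb.emono (h : LComb M φ f e AL Mi z) : StrictMono e :=
  strictMono_int_of_lt_succ (fun l => lt_of_le_of_lt (h.ef l) (h.fe (l + 1)))

theorem LComb.left (h : LComb M φ f e AL Mi z) {i g l r : ℤ} (h0 : 0 ≤ i) (hM : i ≤ M)
    (hg' : φ i ≤ f (g + 1)) (hm : Mi i l r) : ∃ y : ℕ, l = g - y := by
  have hl : l ≤ g := by
    by_contra hcon
    have h1 : g + 1 ≤ l := by omega
    have h2 := h.fmono.monotone h1
    have h3 := (h.side i l r h0 hM hm).1
    have h4 := h.fe l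
    linarith
  exact ⟨(g - l).toNat, by omega⟩

theorem LComb.right (h : LComb M φ f e AL Mi z) {i g l r : ℤ} (h0 : 0 ≤ i) (hM : i ≤ M)
    (hg : e g ≤ φ i) (hm : Mi i l r) : ∃ y : ℕ, r = g + 1 + y := by
  have hl : g + 1 ≤ r := by
    by_contra hcon
    have h1 : r ≤ g := by omega
    have h2 := h.fmono.monotone h1
    have h3 := (h.side i l r h0 hM hm).2
    have h4 := h.fe g
    linarith
  exact ⟨(r - (g + 1)).toNat, by omega⟩

theorem LComb.uniqR (h : LComb M φ f e AL Mi z) {i l r r' : ℤ} (h0 : 0 ≤ i) (hM : i ≤ M)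
    (h1 : Mi i l r) (h2 : Mi i l r') : r = r' := by
  have a1 := h.ord i l r l r' h0 hM h1 h2
  have a2 := h.ord i l r' l r h0 hM h2 h1
  have a3 : ¬ r' < r := fun hh => lt_irrefl _ (a1.mpr hh)
  have a4 : ¬ r < r' := fun hh => lt_irrefl _ (a2.mpr hh)
  omega

theorem LComb.uniqL (h : LComb M φ f e AL Mi z) {i l l' r : ℤ} (h0 : 0 ≤ i) (hM : i ≤ M)
    (h1 : Mi i l r) (h2 : Mi i l' r) : l = l' := by
  have a1 := h.ord i l r l' r h0 hM h1 h2
  have a2 := h.ord i l' r l r h0 hM h2 h1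
  have a3 : ¬ l < l' := fun hh => lt_irrefl _ (a1.mp hh)
  have a4 : ¬ l' < l := fun hh => lt_irrefl _ (a2.mp hh)
  omega

/-- the mirror is the reflection of the chain in the gap of `φ i` -/
theorem LComb.reflect (h : LComb M φ f e AL Mi z) {i g : ℤ} (h0 : 0 ≤ i) (hM : i ≤ M)
    (hg : e g ≤ φ i) (hg' : φ i ≤ f (g + 1)) (x : ℕ) (hx : AL i (g - x) ∨ AL i (g + 1 + x)) :
    Mi i (g - x) (g + 1 + x) := by
  have hem := h.emono
  have hL : ∀ y : ℕ, e (g - y) ≤ φ i := fun y =>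
    le_trans (hem.monotone (by omega)) hg
  have hR : ∀ y : ℕ, φ i ≤ f (g + 1 + y) := fun y =>
    le_trans hg' (h.fmono.monotone (by omega))
  induction x using Nat.strong_induction_on with
  | _ x ih =>
    have claim1 : AL i (g - x) → Mi i (g - x) (g + 1 + x) := by
      intro hA
      obtain ⟨r, hr⟩ := h.mirL i _ h0 hM hA (hL x)
      obtain ⟨y, rfl⟩ := h.right h0 hM hg hr
      rcases lt_trichotomy y x with hyx | hyx | hyx
      · exfalso
        have hAy : AL i (g - y) := h.clL i (g - x) (g - y) h0 hM hA (by omega) (hL y)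
        have hm := ih y hyx (Or.inl hAy)
        have := h.uniqL h0 hM hr hm
        omega
      · rw [hyx] at hr
        exact hr
      · exfalso
        have hAy : AL i (g + 1 + y) := (h.good i _ _ h0 hM hr).2
        have hAx : AL i (g + 1 + x) := h.clR i (g + 1 + y) (g + 1 + x) h0 hM hAy (by omega) (hR x)
        obtain ⟨l', hl'⟩ := h.mirR i _ h0 hM hAx (hR x)
        obtain ⟨w, rfl⟩ := h.left h0 hM hg' hl'
        have hord := (h.ord i _ _ _ _ h0 hM hr hl').mpr (by omega)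
        have hw : w < x := by omega
        have hm := ih w hw (Or.inl (h.good i _ _ h0 hM hl').1)
        have := h.uniqR h0 hM hm hl'
        omega
    rcases hx with hx | hx
    · exact claim1 hx
    · obtain ⟨l, hl⟩ := h.mirR i _ h0 hM hx (hR x)
      obtain ⟨y, rfl⟩ := h.left h0 hM hg' hl
      rcases lt_trichotomy y x with hyx | hyx | hyx
      · exfalso
        have hm := ih y hyx (Or.inl (h.good i _ _ h0 hM hl).1)
        have := h.uniqR h0 hM hm hl
        omega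
      · rw [hyx] at hl
        exact hl
      · exact claim1 (h.clL i (g - y) (g - x) h0 hM (h.good i _ _ h0 hM hl).1 (by omega) (hL x))

theorem LComb.gap (h : LComb M φ f e AL Mi z) :
    ∃ g : ℤ → ℤ, Monotone g ∧ (∀ i, 0 ≤ i → i ≤ M → e (g i) ≤ φ i) ∧
      (∀ i, φ i ≤ f (g i + 1)) ∧ ∀ i, f (g i) < φ i := by
  have hex : ∀ i, ∃ g : ℤ, f g < φ i ∧ ∀ l, f l < φ i → l ≤ g := by
    intro i
    apply Int.exists_greatest_of_bdd (P := fun l => f l < φ i)
    · obtain ⟨b, hb⟩ := h.fabove (φ i)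
      refine ⟨b, fun l hl => ?_⟩
      have : f l < f b := lt_trans hl hb
      exact (h.fmono.lt_iff_lt.mp this).le
    · exact h.fbelow (φ i)
  choose g hg1 hg2 using hex
  refine ⟨g, ?_, ?_, ?_, hg1⟩
  · intro i j hij
    exact hg2 j (g i) (lt_of_lt_of_le (hg1 i) (h.φmono.monotone hij))
  · intro i h0 hM
    rcases h.sep i (g i) h0 hM with h1 | h1
    · exact absurd (hg1 i) (not_lt.mpr h1)
    · exact h1
  · intro i
    by_contra hc
    have := hg2 i (g i + 1) (not_le.mp hc)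
    omega

theorem LComb.nonpar (h : LComb M φ f e AL Mi z) {i l r : ℤ} (h0 : 0 ≤ i) (hM : i + 1 ≤ M)
    (h1 : Mi i l r) (h2 : Mi (i + 1) l r) : False := by
  obtain ⟨x, hx, hx1⟩ := h.cent i l r h0 (by omega) h1
  obtain ⟨y, hy, hy1⟩ := h.cent (i + 1) l r (by omega) hM h2
  rw [hx1] at hy1
  simp only [pt, Prod.mk.injEq] at hy1
  obtain ⟨e1, e2⟩ := hy1
  have hlt : φ i < φ (i + 1) := h.φmono (by omega)
  have hspan := h.span
  have ha := h.φmono.monotone h0
  have hb := h.φmono.monotone hM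
  have hsin : 0 < Real.sin (φ (i + 1) - φ i) := by
    apply Real.sin_pos_of_pos_of_lt_pi (by linarith)
    linarith
  rw [Real.sin_sub] at hsin
  have : x * (Real.sin (φ (i + 1)) * Real.cos (φ i) - Real.cos (φ (i + 1)) * Real.sin (φ i)) = 0 := by
    linear_combination Real.sin (φ (i + 1)) * e2 + Real.cos (φ (i + 1)) * e1
  have h3 := mul_pos hx hsin
  linarith

/-- if one gap of the window contains an arc of the chain, then all of them do -/
theorem LComb.strict (h : LComb M φ f e AL Mi z) {g : ℤ → ℤ} (hm : Monotone g)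
    (hg : ∀ i, 0 ≤ i → i ≤ M → e (g i) ≤ φ i) (hg' : ∀ i, φ i ≤ f (g i + 1)) {k0 : ℤ}
    (hk0 : 0 ≤ k0) (hk0' : k0 + 1 ≤ M) (hk : g k0 < g (k0 + 1)) :
    ∀ k, 0 ≤ k → k + 1 ≤ M → g k < g (k + 1) := by
  have hem := h.emono
  have hfm := h.fmono.monotone
  have hφm := h.φmono.monotone
  have hrefl : ∀ i, 0 ≤ i → i ≤ M → (AL i (g i) ∨ AL i (g i + 1)) → Mi i (g i) (g i + 1) := by
    intro i h0 hM hi
    have := h.reflect h0 hM (hg i h0 hM) (hg' i) 0 (by simpa using hi)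
    simpa using this
  have up : ∀ k, 0 ≤ k → k + 1 + 1 ≤ M → g k < g (k + 1) → g (k + 1) < g (k + 1 + 1) := by
    intro k h0 hM hk
    by_contra hcon
    have heq : g (k + 1 + 1) = g (k + 1) :=
      le_antisymm (not_lt.mp hcon) (hm (by omega))
    have h1 : φ k ≤ f (g (k + 1)) := le_trans (hg' k) (hfm (by omega))
    have h2 : e (g (k + 1)) ≤ φ (k + 1) := hg (k + 1) (by omega) (by omega)
    have h3 : φ 0 ≤ f (g (k + 1)) := (hφm h0).trans h1
    have hA1 : AL (k + 1) (g (k + 1)) := h.nearL _ _ (by omega) (by omega) h3 h2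
    have hM1 := hrefl (k + 1) (by omega) (by omega) (Or.inl hA1)
    have hA2 : AL (k + 1 + 1) (g (k + 1 + 1)) := by
      refine h.nearL _ _ (by omega) hM ?_ (hg (k + 1 + 1) (by omega) hM)
      rw [heq]
      exact h3
    have hM2 := hrefl (k + 1 + 1) (by omega) hM (Or.inl hA2)
    rw [heq] at hM2
    exact h.nonpar (by omega) hM hM1 hM2
  have down : ∀ k, 1 ≤ k → k + 1 ≤ M → g k < g (k + 1) → g (k - 1) < g (k - 1 + 1) := by
    intro k h0 hM hk
    by_contra hcon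
    have hk1 : k - 1 + 1 = k := by ring
    rw [hk1] at hcon
    have heq : g (k - 1) = g k :=
      le_antisymm (hm (by omega)) (not_lt.mp hcon)
    have h1 : φ k ≤ f (g k + 1) := hg' k
    have h2 : e (g k + 1) ≤ φ (k + 1) :=
      le_trans (hem.monotone (by omega)) (hg (k + 1) (by omega) hM)
    have h3 : e (g k + 1) ≤ φ M := h2.trans (hφm hM)
    have hA1 : AL k (g k + 1) := h.nearR _ _ (by omega) (by omega) h1 h3
    have hM1 := hrefl k (by omega) (by omega) (Or.inr hA1)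
    have hA2 : AL (k - 1) (g (k - 1) + 1) := by
      refine h.nearR _ _ (by omega) (by omega) (hg' (k - 1)) ?_
      rw [heq]
      exact h3
    have hM2 := hrefl (k - 1) (by omega) (by omega) (Or.inr hA2)
    rw [heq] at hM2
    have hM1' : Mi (k - 1 + 1) (g k) (g k + 1) := by rw [hk1]; exact hM1
    exact h.nonpar (by omega) (by omega) hM2 hM1'
  intro k h0 hM
  have hupn : ∀ n : ℕ, k0 + n + 1 ≤ M → g (k0 + n) < g (k0 + n + 1) := by
    intro n
    induction n with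
    | zero => intro _; simpa using hk
    | succ n ih =>
      intro hn
      push_cast at hn ⊢
      have := up _ (by omega) (by omega) (ih (by omega))
      rw [show k0 + ((n : ℤ) + 1) = k0 + n + 1 by ring]
      exact this
  have hdownn : ∀ n : ℕ, 0 ≤ k0 - n → g (k0 - n) < g (k0 - n + 1) := by
    intro n
    induction n with
    | zero => intro _; simpa using hk
    | succ n ih =>
      intro hn
      push_cast at hn ⊢
      have := down _ (by omega) (by omega) (ih (by omega))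
      rw [show k0 - ((n : ℤ) + 1) = k0 - n - 1 by ring]
      exact this
  rcases le_total k0 k with hk | hk
  · have := hupn (k - k0).toNat (by omega)
    rw [show k0 + ((k - k0).toNat : ℤ) = k by omega] at this
    exact this
  · have := hdownn (k0 - k).toNat (by omega)
    rw [show k0 - ((k0 - k).toNat : ℤ) = k by omega] at this
    exact this

/-- **The window.** -/
theorem LComb.window (h : LComb M φ f e AL Mi z) (q : ℕ) (hq : 8 * (q : ℤ) + 4 ≤ M) {l0 : ℤ}
    (hl0 : φ 0 ≤ f l0) (hl0' : e l0 ≤ φ M) :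
    ∃ (i b : ℤ) (m : Fin 5 → ℤ), 0 ≤ i ∧ i + 4 ≤ M ∧ 0 < b ∧ StrictMono m ∧ (∀ j, Odd (m j)) ∧
      m 4 - m 0 = 2 * b ∧
      ∀ (j : Fin 5) (l : ℤ), m j < 2 * l → 2 * l < m j + 2 * (q * b) →
        ∃ x : ℝ, 0 < x ∧ z l - z (m j - l) = pt (φ (i + (j : ℕ))) 0 x := by
  classical
  obtain ⟨g, hm, hg, hg', hg''⟩ := h.gap
  have hem := h.emono
  have hfm := h.fmono.monotone
  have hφm := h.φmono.monotone
  -- the gap of `l0`
  have hM0 : 0 < M := by omega
  obtain ⟨k0, hk0, hk0', hk⟩ : ∃ k0, 0 ≤ k0 ∧ k0 + 1 ≤ M ∧ g k0 < g (k0 + 1) := by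
    obtain ⟨k, ⟨hk1, hk2⟩, hk3⟩ := Int.exists_greatest_of_bdd (P := fun k => φ k ≤ f l0 ∧ k ≤ M)
      ⟨M, fun k hk => hk.2⟩ ⟨0, hl0, hM0.le⟩
    have hkM : k ≠ M := by
      rintro rfl
      have := h.fe l0
      linarith
    have hk0 : 0 ≤ k := hk3 0 ⟨hl0, hM0.le⟩
    have hlt : f l0 < φ (k + 1) := by
      by_contra hc
      have := hk3 (k + 1) ⟨not_lt.1 hc, by omega⟩
      omega
    refine ⟨k, hk0, by omega, ?_⟩
    have h1 : g k < l0 := by
      by_contra hc
      have := hfm (not_lt.1 hc)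
      have := hg'' k
      linarith
    have h2 : l0 ≤ g (k + 1) := by
      by_contra hc
      have h3 : g (k + 1) + 1 ≤ l0 := by omega
      have := hfm h3
      have := hg' (k + 1)
      linarith
    omega
  have hst := h.strict hm hg hg' hk0 hk0' hk
  have hstn : ∀ (n : ℕ) (i : ℤ), 0 ≤ i → i + n ≤ M → g i + n ≤ g (i + n) := by
    intro n
    induction n with
    | zero => intro i _ _; simp
    | succ n ih =>
      intro i h0 h1
      push_cast at h1 ⊢
      have h2 := ih i h0 (by omega)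
      have h3 := hst (i + n) (by omega) (by omega)
      rw [show i + ((n : ℤ) + 1) = i + n + 1 by ring]
      omega
  -- the minimal gap
  obtain ⟨i, b, hi0, hiM, hb, hib, hmin⟩ : ∃ i b : ℤ, 0 ≤ i ∧ i + 4 ≤ M ∧ 0 < b ∧
      g (i + 4) - g i = b ∧ ∀ j, 0 ≤ j → j + 4 ≤ M → b ≤ g (j + 4) - g j := by
    have hpos : ∀ i, 0 ≤ i → i + 4 ≤ M → 0 < g (i + 4) - g i := fun i h0 h1 => by
      have := hstn 4 i h0 (by push_cast; omega)
      push_cast at this
      omega
    have hex : ∃ n : ℕ, ∃ i : ℤ, 0 ≤ i ∧ i + 4 ≤ M ∧ g (i + 4) - g i = n :=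
      ⟨(g (0 + 4) - g 0).toNat, 0, le_refl _, by omega,
        by have := hpos 0 (le_refl _) (by omega); omega⟩
    obtain ⟨i, hi0, hiM, hi⟩ := Nat.find_spec hex
    refine ⟨i, (Nat.find hex : ℤ), hi0, hiM, ?_, hi, ?_⟩
    · have := hpos i hi0 hiM
      omega
    · intro j hj0 hjM
      have h1 : Nat.find hex ≤ (g (j + 4) - g j).toNat :=
        Nat.find_min' hex ⟨j, hj0, hjM, by have := hpos j hj0 hjM; omega⟩
      have := hpos j hj0 hjM
      omega
  have key : ∀ (k : ℕ) (i' : ℤ), 0 ≤ i' → i' + 4 * k ≤ M → g i' + k * b ≤ g (i' + 4 * k) := by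
    intro k
    induction k with
    | zero => intro i' _ _; simp
    | succ k ih =>
      intro i' h0 h1
      push_cast at h1
      have h2 := ih i' h0 (by omega)
      have h3 := hmin (i' + 4 * k) (by omega) (by omega)
      push_cast
      rw [show i' + 4 * ((k : ℤ) + 1) = i' + 4 * k + 4 by ring]
      linarith
  refine ⟨i, b, fun j => 2 * g (i + (j : ℕ)) + 1, hi0, hiM, hb, ?_, ?_, ?_, ?_⟩
  · intro j j' hjj
    have hj4 : (j' : ℕ) ≤ 4 := by omega
    have hjj' : (j : ℕ) < (j' : ℕ) := hjj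
    have h1 := hstn ((j' : ℕ) - (j : ℕ)) (i + (j : ℕ)) (by omega) (by omega)
    rw [show i + ((j : ℕ) : ℤ) + (((j' : ℕ) - (j : ℕ) : ℕ) : ℤ) = i + (j' : ℕ) by omega] at h1
    show 2 * g (i + (j : ℕ)) + 1 < 2 * g (i + (j' : ℕ)) + 1
    omega
  · intro j
    exact ⟨g (i + (j : ℕ)), rfl⟩
  · show 2 * g (i + ((4 : Fin 5) : ℕ)) + 1 - (2 * g (i + ((0 : Fin 5) : ℕ)) + 1) = 2 * b
    have e1 : i + (((4 : Fin 5) : ℕ) : ℤ) = i + 4 := rfl
    have e2 : i + (((0 : Fin 5) : ℕ) : ℤ) = i := by simp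
    rw [e1, e2]
    linarith
  · intro j l h1 h2
    have h1' : 2 * g (i + (j : ℕ)) + 1 < 2 * l := h1
    have h2' : 2 * l < 2 * g (i + (j : ℕ)) + 1 + 2 * (q * b) := h2
    have hj4 : (j : ℕ) ≤ 4 := by omega
    have hj0 : 0 ≤ i + (j : ℕ) := by omega
    have hjM : i + (j : ℕ) ≤ M := by omega
    obtain ⟨x, hx⟩ : ∃ x : ℕ, l = g (i + (j : ℕ)) + 1 + x :=
      ⟨(l - (g (i + (j : ℕ)) + 1)).toNat, by omega⟩
    have hxq : (x : ℤ) < q * b := by omega
    have hAL : AL (i + (j : ℕ)) (g (i + (j : ℕ)) - x) ∨ AL (i + (j : ℕ)) (g (i + (j : ℕ)) + 1 + x) := by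
      by_cases hcase : i + 4 + 4 * (q : ℤ) ≤ M
      · right
        have a1 := key q (i + (j : ℕ)) hj0 (by omega)
        refine h.nearR _ _ hj0 hjM ((hg' _).trans (hfm (by omega))) ?_
        have a2 : e (g (i + (j : ℕ)) + 1 + x) ≤ e (g (i + (j : ℕ) + 4 * q)) :=
          hem.monotone (by linarith)
        exact a2.trans ((hg _ (by omega) (by omega)).trans (hφm (by omega)))
      · left
        have a1 := key q (i + (j : ℕ) - 4 * q) (by omega) (by omega)
        rw [show i + ((j : ℕ) : ℤ) - 4 * q + 4 * q = i + (j : ℕ) by ring] at a1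
        refine h.nearL _ _ hj0 hjM ?_ ((hem.monotone (by omega)).trans (hg _ hj0 hjM))
        have a2 : φ (i + (j : ℕ) - 4 * q) ≤ f (g (i + (j : ℕ)) - x) :=
          (hg' _).trans (hfm (by linarith))
        exact (hφm (by omega)).trans a2
    have hMi := h.reflect hj0 hjM (hg _ hj0 hjM) (hg' _) x hAL
    obtain ⟨y, hy, hz⟩ := h.cent _ _ _ hj0 hjM hMi
    refine ⟨y, hy, ?_⟩
    have e1 : 2 * g (i + (j : ℕ)) + 1 - l = g (i + (j : ℕ)) - x := by rw [hx]; ring
    show z l - z (2 * g (i + (j : ℕ)) + 1 - l) = _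
    rw [e1, hx]
    exact hz

end Pool.Agent.CRW
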