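import Pool.Agent.CRW.W9

/-!
# [CRW] One thick place: a clean window
-/

set_option autoImplicit false
open MeasureTheory Set
open Pool.Agent.XA Pool.Agent.CRN

namespace Pool.Agent.CRW

variable {N : ℕ} {s : ℕ → ℝ} {K P L Q : Set (ℝ × ℝ)} {x₀ : ℝ × ℝ} {α δ D ε : ℝ}

/-- two S-angles in an interval -/
theorem Pt.two (h : Pt N s K P L Q x₀ α δ D ε) {x y : ℝ} (hxy : x + 2 * ε ≤ y) :
    ∃ p ∈ range (ang N s), ∃ q ∈ range (ang N s), p ∈ Icc x y ∧ q ∈ Icc x y ∧ p < q := by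
  obtain ⟨i, h1, h2⟩ := h.next x
  have h3 := h.gap i
  have h4 := h.mono (lt_add_one i)
  exact ⟨_, ⟨i, rfl⟩, _, ⟨i + 1, rfl⟩, ⟨h1.le, by linarith [h.ε0]⟩, ⟨by linarith, by linarith⟩, h4⟩

theorem Pt.exists_Cw (h : Pt N s K P L Q x₀ α δ D ε) : ∃ a b Va Vb u v,
    Cw K P L Q (range (ang N s)) a b Va Vb u v (2 * D) (δ * D / 4) (δ * D / 2) ∧
      v = u + δ / 10 ∧ α ≤ u ∧ v ≤ α + δ := by
  have hεδ := h.εδ
  have hε0 := h.ε0
  have hδ0 := h.δ0
  have hδ1 := h.δ1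
  have hD := h.D0
  have hR := h.R0
  have hpi := Real.pi_gt_three
  obtain ⟨ia, a1, a2⟩ := h.next α
  obtain ⟨ib, b1, b2⟩ := h.next (α + δ - ε)
  have hab : ia + 164 ≤ ib := by
    by_contra hc
    have h1 : ib ≤ ia + 164 := by omega
    have h2 := h.mono.monotone h1
    have h3 := h.gapn ia 164
    push_cast at h3
    linarith
  have heq := h.window a1.le (by linarith) hab
  obtain ⟨Va, Vb, F⟩ := exists_Fr h.bK h.bL (a := ang N s ia) (b := ang N s ib) (by linarith)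
    (by linarith) heq
  have hvis : ∀ θ ∈ range (ang N s), θ ∈ Ioo (ang N s ia) (ang N s ib) → ∃ c0 < hs K θ,
      ∀ c, c0 < c → c < hs K θ →
      volume {t : ℝ | pt θ c t ∈ K} = volume {t : ℝ | pt θ c t ∈ L} := by
    rintro θ ⟨i, rfl⟩ hi
    exact ⟨hs K (ang N s i) - δ * D / 8, by linarith, fun c hc _ =>
      h.slice ⟨by linarith [hi.1], by linarith [hi.2]⟩ hc.le⟩
  obtain ⟨u, v, a', b', Va', Vb', huv, F', hu, hv, hcl⟩ := F.clean hvis
    (c1 := α + 2 * δ / 10) (c2 := α + 3 * δ / 10) (c3 := α + 4 * δ / 10) (c4 := α + 5 * δ / 10)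
    (c5 := α + 6 * δ / 10) (c6 := α + 7 * δ / 10) (by linarith) (by linarith) (by linarith)
    (by linarith) (by linarith) (by linarith) (by linarith) (h.two (by linarith))
    (h.two (by linarith))
  have huv1 : v = u + δ / 10 := by
    rcases huv with ⟨rfl, rfl⟩ | ⟨rfl, rfl⟩ | ⟨rfl, rfl⟩ <;> ring
  have huv2 : α ≤ u := by
    rcases huv with ⟨rfl, rfl⟩ | ⟨rfl, rfl⟩ | ⟨rfl, rfl⟩ <;> linarith
  have huv3 : v ≤ α + δ := by
    rcases huv with ⟨rfl, rfl⟩ | ⟨rfl, rfl⟩ | ⟨rfl, rfl⟩ <;> linarith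
  refine ⟨a', b', Va', Vb', u, v, ?_, huv1, huv2, huv3⟩
  exact
    { fr := F'
      bP := h.bP
      bQ := h.bQ
      hPK := h.hPK
      hQL := h.hQL
      hX := by
        rintro θ ⟨i, rfl⟩ c
        exact h.hX i c
      au := hu
      vb := hv
      uv := by linarith
      clean := hcl
      depth := by
        rintro θ ⟨i, rfl⟩ hi y hy
        exact h.depth ⟨by linarith [hi.1], by linarith [hi.2]⟩ hy
      dd := h.dd
      dρ := by
        have e : 2 * D * (v - u) = δ * D / 5 := by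
          rw [huv1]
          ring
        rw [e]
        linarith
      ball := by
        rintro θ ⟨i, rfl⟩ hi
        obtain ⟨z, hz, ez, -, hz'⟩ := h.arc _ (⟨by linarith [hi.1], by linarith [hi.2]⟩ :
          ang N s i ∈ Icc α (α + δ))
        exact ⟨z, hz, ez, hz'⟩
      ρ'0 := by linarith }

end Pool.Agent.CRW
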