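import Pool.Agent.CRW.W6
import Pool.Agent.CRW.W7
import Pool.Agent.CRW.W10

/-!
# [CRW] One thick place: the annuli are equal
-/

set_option autoImplicit false
open MeasureTheory Set
open Pool.Agent.XA Pool.Agent.CRN

namespace Pool.Agent.CRW

variable {N : ℕ} {s : ℕ → ℝ} {K P L Q : Set (ℝ × ℝ)} {x₀ : ℝ × ℝ} {α δ D ε : ℝ}

/-- the centre of the disc is in `Q` -/
theorem Pt.centre (h : Pt N s K P L Q x₀ α δ D ε) : x₀ ∈ P ∧ x₀ ∈ Q := by
  have hR := h.R0
  have hD := h.D0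
  have hεδ := h.εδ
  have hε0 := h.ε0
  refine ⟨?_, ?_⟩
  · have h1 := mem_of_disc h.bP h.disc (θ := 0) (c := 0) (t := 0) (by simpa using hR.le)
    rw [add_zero, add_zero, pt_lv_tg] at h1
    exact h1
  · refine centre_mem h.bK h.bP h.bL h.bQ h.hPK h.hQL (R := δ * D) (D := D) (ε := ε) hR hε0 ?_ ?_
      h.disc h.close h.hw h.dd (fun ψ => ?_)
    · have h3 : D * (792000 * 4 * ε) < D * δ := mul_lt_mul_of_pos_left hεδ hD
      have h4 : 0 < D * ε := mul_pos hD h.ε0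
      linarith
    · have h3 : D * D * (1584000 * ε) < D * D * δ ^ 2 :=
        mul_lt_mul_of_pos_left h.n2 (mul_pos hD hD)
      have h4 : 0 < D * (D * ε) := mul_pos hD (mul_pos hD h.ε0)
      nlinarith
    · obtain ⟨i, hi⟩ := h.near ψ
      exact ⟨_, hi, h.hX i⟩

/-- a fine window in which the symmetric difference of the outer bodies is at depth `δ² D / 600` below the top of
the inner body -/
theorem Pt.exists_fine (h : Pt N s K P L Q x₀ α δ D ε) : ∃ a b Va Vb i0,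
    Fr K L a b Va Vb ∧ a < ang N s i0 ∧ ang N s (i0 + 164) < b ∧
    ∀ i : ℤ, 0 ≤ i → i ≤ 164 → hs P (ang N s (i0 + i)) = hs Q (ang N s (i0 + i)) ∧
      (∀ w ∈ closure (SD K L), lv (ang N s (i0 + i)) w ≤
        hs P (ang N s (i0 + i)) - δ ^ 2 * D / 600) ∧
      (∀ c, hs P (ang N s (i0 + i)) - δ ^ 2 * D / 600 < c →
        volume {t : ℝ | pt (ang N s (i0 + i)) c t ∈ interior P} =
          volume {t : ℝ | pt (ang N s (i0 + i)) c t ∈ interior Q}) := by
  have hεδ := h.εδ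
  have hε0 := h.ε0
  have hδ0 := h.δ0
  have hδ1 := h.δ1
  have hD := h.D0
  have hR := h.R0
  have hpi := Real.pi_gt_three
  have hpi' := Real.pi_le_four
  obtain ⟨a, b, Va, Vb, u, v, C, huv, hu, hv⟩ := h.exists_Cw
  obtain ⟨u', v', hu', hv', huv', hg⟩ := C.third
  have hw : v' = u' + 10 * (δ / 300) := by
    rw [huv', huv]
    ring
  -- strictness
  have strict : ∀ θ ∈ range (ang N s), θ ∈ Icc (u' + δ / 300) (v' - δ / 300) →
      ∀ x ∈ closure (SD K L), lv θ x < max (hs P θ) (hs Q θ) := by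
    intro θ hθ hθ' x hx
    obtain ⟨j, j1, j2⟩ := h.next u'
    obtain ⟨k, k1, k2⟩ := h.next θ
    exact C.strict hu' hv' hg ⟨j, rfl⟩ hθ ⟨k, rfl⟩ ⟨j1.le, by linarith [hθ'.1, hθ'.2]⟩
      ⟨by linarith [hθ'.1, hθ'.2], by linarith [hθ'.1, hθ'.2]⟩ (by linarith [hθ'.1])
      k1 hx
  obtain ⟨j, j1, j2⟩ := h.next (u' + δ / 300)
  obtain ⟨k, k1, k2⟩ := h.next (u' + 8 * (δ / 300))
  obtain ⟨i0, i1, i2⟩ := h.next (u' + 4 * (δ / 300))
  have hgap := h.gapn i0 164
  push_cast at hgap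
  have hmono := h.mono.monotone
  refine ⟨a, b, Va, Vb, i0, C.fr, by linarith [C.au], by linarith [C.vb], ?_⟩
  intro i g0 g1
  have m1 : ang N s i0 ≤ ang N s (i0 + i) := hmono (by omega)
  have m2 : ang N s (i0 + i) ≤ ang N s (i0 + 164) := hmono (by omega)
  have e1 : hs P (ang N s (i0 + i)) = hs Q (ang N s (i0 + i)) :=
    C.hsPQ ⟨_, rfl⟩ (strict _ ⟨_, rfl⟩ ⟨by linarith, by linarith⟩)
  have e2 : ∀ w ∈ closure (SD K L), lv (ang N s (i0 + i)) w ≤
      hs P (ang N s (i0 + i)) - δ ^ 2 * D / 600 := by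
    intro w hw'
    have h1 := C.margin (j := ang N s j) (θ := ang N s (i0 + i)) (k := ang N s k)
      (ε := 2 * (δ / 300)) ⟨_, rfl⟩ ⟨_, rfl⟩ ⟨_, rfl⟩ ⟨by linarith, by linarith⟩
      ⟨by linarith, by linarith⟩ (by linarith) (by linarith) (by linarith) (by linarith)
      (by linarith) (by linarith) (strict _ ⟨_, rfl⟩ ⟨by linarith, by linarith⟩)
      (strict _ ⟨_, rfl⟩ ⟨by linarith, by linarith⟩) hw'
    have h2 : δ / 300 ≤ Real.sin (2 * (δ / 300)) := by
      have h3 := Real.mul_le_sin (x := 2 * (δ / 300)) (by linarith) (by linarith)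
      have h4 : 1 / 2 ≤ 2 / Real.pi := by
        rw [div_le_div_iff₀ (by norm_num) (by linarith)]
        linarith
      have h5 : 1 / 2 * (2 * (δ / 300)) ≤ 2 / Real.pi * (2 * (δ / 300)) :=
        mul_le_mul_of_nonneg_right h4 (by linarith)
      linarith
    have h6 : δ * D / 2 * (δ / 300) ≤ δ * D / 2 * Real.sin (2 * (δ / 300)) :=
      mul_le_mul_of_nonneg_left h2 (by linarith)
    have h7 : δ * D / 2 * (δ / 300) = δ ^ 2 * D / 600 := by ring
    linarith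
  exact ⟨e1, e2, fun c hc => C.int_eq ⟨_, rfl⟩ e2 hc⟩

/-- **One thick place suffices.** -/
theorem Pt.main (h : Pt N s K P L Q x₀ α δ D ε) : K = L ∧ P = Q := by
  classical
  have hεδ := h.εδ
  have hε0 := h.ε0
  have hδ0 := h.δ0
  have hδ1 := h.δ1
  have hD := h.D0
  have hR := h.R0
  have hpi := Real.pi_gt_three
  have hmono := h.mono.monotone
  obtain ⟨a, b, Va, Vb, i0, F, ha, hb, hi⟩ := h.exists_fine
  have hgap := h.gapn i0 164
  push_cast at hgap
  have hlt : ang N s i0 < ang N s (i0 + 164) := h.mono (by omega)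
  have h0 := hi 0 (le_refl _) (by norm_num)
  have h164 := hi 164 (by norm_num) (le_refl _)
  rw [add_zero] at h0
  have hκ : 8 * (2 * D * (165 * ε)) < δ ^ 2 * D / 600 := by
    have h3 : D * (1584000 * ε) < D * δ ^ 2 := mul_lt_mul_of_pos_left h.n2 hD
    linarith
  have hκ0 : 0 < δ ^ 2 * D / 600 := by positivity
  have hsub : ∀ v ∈ P ∪ Q, v ∈ K ∪ L := by
    rintro v (hv | hv)
    · exact Or.inl (interior_subset (h.hPK hv))
    · exact Or.inr (interior_subset (h.hQL hv))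
  have W : Fw P Q (ang N s i0) (ang N s (i0 + 164)) (2 * D) (165 * ε) (δ ^ 2 * D / 600) x₀ :=
    { bP := h.bP
      bQ := h.bQ
      xy := hlt
      yη := by linarith
      ηπ := by linarith
      dd := fun v hv w hw ψ => h.dd v (hsub v hv) w (hsub w hw) ψ
      hκ := hκ
      ex := h0.1
      ey := h164.1
      xP := h.centre.1
      xQ := h.centre.2
      low := by
        have h1 := h.disc (ang N s i0)
        have h2 : δ ^ 2 * D / 600 ≤ δ * D := by
          have h3 : δ * D * δ ≤ δ * D * 1 := mul_le_mul_of_nonneg_left (by linarith) hR.le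
          nlinarith
        linarith }
  have hPQ := pq_block h.hN h.hs' W (fun i g0 g1 => (hi i g0 g1).1)
    (fun i g0 g1 => (hi i g0 g1).2.2)
  obtain ⟨Ua, Ub, F2⟩ := exists_Fr h.bP h.bQ hlt (by linarith) hPQ
  have idx : ∀ j : ℤ, ang N s j ∈ Icc (ang N s i0) (ang N s (i0 + 164)) →
      ∃ i : ℤ, 0 ≤ i ∧ i ≤ 164 ∧ j = i0 + i := by
    intro j hj
    have g1 : i0 ≤ j := h.mono.le_iff_le.1 hj.1
    have g2 : j ≤ i0 + 164 := h.mono.le_iff_le.1 hj.2
    exact ⟨j - i0, by omega, by omega, by ring⟩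
  have hvis : ∀ θ ∈ range (ang N s), θ ∈ Ioo (ang N s i0) (ang N s (i0 + 164)) →
      ∃ c0 < hs P θ, ∀ c, c0 < c → c < hs P θ →
      volume {t : ℝ | pt θ c t ∈ P} = volume {t : ℝ | pt θ c t ∈ Q} := by
    rintro θ ⟨j, rfl⟩ hj
    obtain ⟨i, g0, g1, rfl⟩ := idx j ⟨hj.1.le, hj.2.le⟩
    obtain ⟨e1, -, e3⟩ := hi i g0 g1
    have w1 := width_pos h.bP (ang N s (i0 + i))
    have w2 := width_pos h.bQ (ang N s (i0 + i))
    refine ⟨max (hs P (ang N s (i0 + i)) - δ ^ 2 * D / 600)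
      (max (-hs P (ang N s (i0 + i) + Real.pi)) (-hs Q (ang N s (i0 + i) + Real.pi))),
      max_lt (by linarith) (max_lt (by linarith) (by linarith)), fun c hc hc' => ?_⟩
    rw [max_lt_iff, max_lt_iff] at hc
    rw [← vol_interior_eq h.bP hc.2.1 hc', ← vol_interior_eq h.bQ hc.2.2 (by rwa [← e1])]
    exact e3 c hc.1
  have st : ∀ m : ℤ, ang N s m < ang N s (m + 20) := fun m => h.mono (by omega)
  have two : ∀ m : ℤ, ∃ p ∈ range (ang N s), ∃ q ∈ range (ang N s),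
      p ∈ Icc (ang N s m) (ang N s (m + 20)) ∧ q ∈ Icc (ang N s m) (ang N s (m + 20)) ∧ p < q :=
    fun m => ⟨_, ⟨m, rfl⟩, _, ⟨m + 20, rfl⟩, ⟨le_refl _, (st m).le⟩, ⟨(st m).le, le_refl _⟩, st m⟩
  obtain ⟨u, v, a', b', Ua', Ub', huv, F', hu, hv, hcl⟩ := F2.clean hvis
    (c1 := ang N s (i0 + 20)) (c2 := ang N s (i0 + 20 + 20)) (c3 := ang N s (i0 + 60))
    (c4 := ang N s (i0 + 60 + 20)) (c5 := ang N s (i0 + 100)) (c6 := ang N s (i0 + 100 + 20))
    (h.mono (by omega)) (h.mono (by omega)) (h.mono (by omega)) (h.mono (by omega))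
    (h.mono (by omega)) (h.mono (by omega)) (h.mono (by omega)) (two _) (two _)
  obtain ⟨m, hm0, hm1, rfl, rfl⟩ : ∃ m : ℤ, 0 ≤ m ∧ m ≤ 144 ∧ u = ang N s (i0 + m) ∧
      v = ang N s (i0 + m + 20) := by
    rcases huv with ⟨rfl, rfl⟩ | ⟨rfl, rfl⟩ | ⟨rfl, rfl⟩
    · exact ⟨20, by norm_num, by norm_num, rfl, rfl⟩
    · exact ⟨60, by norm_num, by norm_num, rfl, rfl⟩
    · exact ⟨100, by norm_num, by norm_num, rfl, rfl⟩
  have hG : ∀ θ ∈ (Finset.range 21).image (fun k : ℕ => ang N s (i0 + m + k)),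
      ∃ i : ℤ, 0 ≤ i ∧ i ≤ 164 ∧ m ≤ i ∧ i ≤ m + 20 ∧ θ = ang N s (i0 + i) := by
    intro θ hθ
    obtain ⟨k, hk, rfl⟩ := Finset.mem_image.1 hθ
    rw [Finset.mem_range] at hk
    exact ⟨m + k, by omega, by omega, by omega, by omega, by rw [add_assoc]⟩
  refine uc F F' h.hPK h.hQL
    (G := (Finset.range 21).image (fun k : ℕ => ang N s (i0 + m + k))) ?_ ?_ ?_ ?_ ?_ ?_
  · rw [Finset.card_image_of_injective, Finset.card_range]
    · norm_num
    · intro k k' hkk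
      have := h.mono.injective hkk
      omega
  · intro θ hθ c
    obtain ⟨i, g0, g1, g2, g3, rfl⟩ := hG θ hθ
    exact h.hX _ c
  · intro θ hθ
    obtain ⟨i, g0, g1, g2, g3, rfl⟩ := hG θ hθ
    have m1 : ang N s i0 ≤ ang N s (i0 + i) := hmono (by omega)
    have m2 : ang N s (i0 + i) ≤ ang N s (i0 + 164) := hmono (by omega)
    exact ⟨by linarith, by linarith⟩
  · intro θ hθ
    obtain ⟨i, g0, g1, g2, g3, rfl⟩ := hG θ hθ
    have m1 : ang N s (i0 + m) ≤ ang N s (i0 + i) := hmono (by omega)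
    have m2 : ang N s (i0 + i) ≤ ang N s (i0 + m + 20) := hmono (by omega)
    exact ⟨by linarith, by linarith⟩
  · intro θ hθ
    obtain ⟨i, g0, g1, g2, g3, rfl⟩ := hG θ hθ
    exact ⟨_, by linarith, (hi i g0 g1).2.1⟩
  · intro θ hθ
    obtain ⟨i, g0, g1, g2, g3, rfl⟩ := hG θ hθ
    exact hcl _ ⟨_, rfl⟩ ⟨hmono (by omega), hmono (by omega)⟩

end Pool.Agent.CRW
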