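import Pool.Agent.CRW.W11
import Pool.Agent.CRN.D1
import Pool.Agent.XA.V7
import Pool.Agent.XA.V8
import Pool.Agent.XA.Z5

/-!
# [CRW] One finite set of directions for all annuli with a thick place
-/

set_option autoImplicit false
open MeasureTheory Set
open Pool.Agent.XA Pool.Agent.CRN

namespace Pool.Agent.CRW

/-- the annulus `K \ int P` has a place of thickness `δ`: `P` contains a disc of radius `δ * diam K`, and there is
an arc of outer normals of `P` of length `δ` with boundary points `z` of `P` at distance `≥ δ * diam K` from the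
complement of `K` -/
def ThickPlace (δ : ℝ) (K P : Set (EuclideanSpace ℝ (Fin 2))) : Prop :=
  (∃ x, Metric.closedBall x (δ * Metric.diam K) ⊆ P) ∧
  ∃ α : ℝ, ∀ ψ ∈ Icc α (α + δ), ∃ z, NormalAt P z ψ ∧
    Metric.closedBall z (δ * Metric.diam K) ⊆ K

theorem main (δ : ℝ) (hδ : 0 < δ) :
    ∃ U : Finset (EuclideanSpace ℝ (Fin 2)), (∀ u ∈ U, u ≠ 0) ∧
      ∀ K P L Q : Set (EuclideanSpace ℝ (Fin 2)), Annulus K P → Annulus L Q →
        ThickPlace δ K P →
        (∀ u ∈ U, SameXray (K \ interior P) (L \ interior Q) u) → K = L ∧ P = Q := by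
  classical
  have hpi := Real.pi_pos
  have hpi4 : Real.pi ≤ 4 := Real.pi_le_four
  obtain ⟨N, hN⟩ := exists_nat_gt (max 800 (max (1600 / δ ^ 4) (12800000 / δ ^ 2)))
  have hN1 : (800 : ℝ) < N := (le_max_left _ _).trans_lt hN
  have hN2 : 1600 / δ ^ 4 < (N : ℝ) := ((le_max_left _ _).trans (le_max_right _ _)).trans_lt hN
  have hN3 : 12800000 / δ ^ 2 < (N : ℝ) :=
    ((le_max_right _ _).trans (le_max_right _ _)).trans_lt hN
  have hN0 : (0 : ℝ) < N := by linarith
  have hN5 : 5 ≤ N := by
    have : (5 : ℝ) ≤ N := by linarith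
    exact_mod_cast this
  have hε0 : 0 < 2 * Real.pi / N := by positivity
  have hε8 : 2 * Real.pi / N ≤ 8 / N := by
    apply div_le_div_of_nonneg_right _ hN0.le
    linarith
  have n1 : 2 * Real.pi / N < (δ / 2) ^ 4 / 12 := by
    have h4 : 0 < δ ^ 4 := pow_pos hδ 4
    rw [div_lt_iff₀ h4] at hN2
    refine hε8.trans_lt ?_
    rw [div_lt_iff₀ hN0]
    have e : (δ / 2) ^ 4 / 12 * N = N * δ ^ 4 / 192 := by ring
    rw [e]
    linarith
  have n2 : 1584000 * (2 * Real.pi / N) < δ ^ 2 := by
    have h4 : 0 < δ ^ 2 := pow_pos hδ 2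
    rw [div_lt_iff₀ h4] at hN3
    have h5 : 1584000 * (8 / (N : ℝ)) < δ ^ 2 := by
      rw [← mul_div_assoc, div_lt_iff₀ hN0]
      linarith
    linarith
  obtain ⟨s, hs⟩ := exists_slopes N
  refine ⟨(Finset.range N).image (fun r => (!₂[1, s r] : EuclideanSpace ℝ (Fin 2))), ?_, ?_⟩
  · intro u hu
    obtain ⟨r, -, rfl⟩ := Finset.mem_image.1 hu
    exact z5_ne (s r)
  · intro K P L Q hK hL ht hX
    obtain ⟨⟨x, hx⟩, α, hα⟩ := ht
    obtain ⟨x₀, rfl⟩ := toE_surjective x
    have hKb := hK.bK
    have hD : 0 < Metric.diam K := diam_pos hK.compact hKb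
    have hR : 0 < δ * Metric.diam K := mul_pos hδ hD
    have key : Pt N s (toE ⁻¹' K) (toE ⁻¹' P) (toE ⁻¹' L) (toE ⁻¹' Q) x₀ α δ (Metric.diam K)
        (2 * Real.pi / N) :=
      { hN := hN5
        hs' := hs
        bK := hKb
        bP := hK.bP
        bL := hL.bK
        bQ := hL.bP
        hPK := hK.sub
        hQL := hL.sub
        hX := by
          intro i c
          obtain ⟨h0, hc⟩ := ang_trig N s i
          have hr : (i % (N : ℤ)).toNat < N := by
            have h1 := Int.emod_nonneg i (show (N : ℤ) ≠ 0 by omega)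
            have h2 := Int.emod_lt_of_pos i (show (0 : ℤ) < N by omega)
            omega
          have h3 := xray_toE h0 hc
            (hX _ (Finset.mem_image.2 ⟨_, Finset.mem_range.2 hr, rfl⟩)) c
          rw [interior_toE, interior_toE, ← Set.preimage_sdiff, ← Set.preimage_sdiff]
          exact h3
        hw := width_le_diam hK.compact hKb
        disc := fun ψ => deep_toE hK.bP.compact hR.le hx ψ
        disc' := fun θ t ht => disc_slice hx _ (by linarith)
        arc := by
          intro ψ hψ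
          obtain ⟨z, hz, hz'⟩ := hα ψ hψ
          obtain ⟨w, rfl⟩ := toE_surjective z
          exact ⟨w, hz.1, hz.hs_eq hK.bP.compact, deep_toE hKb.compact hR.le hz' ψ,
            fun t ht => disc_slice hz' _ (by linarith)⟩
        δ0 := hδ
        ε0 := hε0
        hε := rfl
        n1 := n1
        n2 := n2 }
    obtain ⟨h1, h2⟩ := key.main
    exact ⟨eq_of_toE h1, eq_of_toE h2⟩

end Pool.Agent.CRW
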