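import Pool.Agent.CRW.W1
import Pool.Agent.XA.E3
import Pool.Agent.XA.Q12
import Pool.Agent.XA.S5
import Pool.Agent.XA.S6

/-!
# [CRW] The local chain theorem
-/

set_option autoImplicit false
open MeasureTheory Set
open Pool.Agent.XA

namespace Pool.Agent.CRW

/-- the chain of a hypothetical difference of the support functions in the window -/
theorem exists_lcomb {K L : Set (ℝ × ℝ)} (hK : IsBody K) (hL : IsBody L) {φ : ℤ → ℝ} {M : ℤ}
    (hM : 0 < M) (φmono : StrictMono φ) (span : φ M < φ 0 + Real.pi)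
    (top : ∀ i, 0 ≤ i → i ≤ M → hs K (φ i) = hs L (φ i))
    (hgood : ∀ i, 0 ≤ i → i ≤ M → ∀ α β, IsArc K L α β → φ 0 ≤ α → β ≤ φ M →
      Good K L (φ i) α β)
    {ψ : ℝ} (hψ : ψ ∈ Icc (φ 0) (φ M)) (hne : hs K ψ ≠ hs L ψ) :
    ∃ (f e : ℤ → ℝ) (AL : ℤ → ℤ → Prop) (Mi : ℤ → ℤ → ℤ → Prop) (z : ℤ → ℝ × ℝ) (l0 : ℤ),
      LComb M φ f e AL Mi z ∧ φ 0 ≤ f l0 ∧ e l0 ≤ φ M := by
  obtain ⟨α, β, hArc, _, hα, hβ⟩ := exists_arc hK hL hψ.1 hψ.2 (top 0 (le_refl _) hM.le)
    (top M hM.le (le_refl _)) hne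
  have ha : 0 < volume (DS K L α β) := volume_DS_pos hK hL hArc
  obtain ⟨f, e, fmono, fabove, fbelow, harc, hall⟩ := exists_chain hK hL ha ⟨α, β, hArc, rfl⟩
  obtain ⟨l0, hf0, he0⟩ := hall α β hArc rfl
  have hπ := Real.pi_pos
  have hφm := φmono.monotone
  have hb : ∀ i, 0 ≤ i → i ≤ M → φ 0 ≤ φ i ∧ φ i ≤ φ M := fun i h0 h1 => ⟨hφm h0, hφm h1⟩
  refine ⟨f, e, fun i l => φ i - Real.pi ≤ f l ∧ e l ≤ φ i + Real.pi ∧ Good K L (φ i) (f l) (e l),
    fun i l r => Mir K L (φ i) (f l) (e l) (f r) (e r), fun l => mom (DS K L (f l) (e l)), l0,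
    ?_, by rw [hf0]; exact hα, by rw [he0]; exact hβ⟩
  exact
    { φmono := φmono
      span := span
      fmono := fmono
      fabove := fabove
      fbelow := fbelow
      fe := fun l => (harc l).1.lt
      ef := fun l => arc_le (harc l).1 (harc (l + 1)).1 (fmono (lt_add_one l))
      sep := fun i l h0 h1 => (harc l).1.not_mem (top i h0 h1)
      nearL := by
        intro i l h0 h1 h2 h3
        have := hb i h0 h1
        exact ⟨by linarith, by linarith, hgood i h0 h1 _ _ (harc l).1 h2 (by linarith)⟩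
      nearR := by
        intro i r h0 h1 h2 h3
        have := hb i h0 h1
        exact ⟨by linarith, by linarith, hgood i h0 h1 _ _ (harc r).1 (by linarith) h3⟩
      mirL := by
        intro i l h0 hM' h1 h2
        obtain ⟨γ, δ, hm⟩ := exists_mir_left (harc l).1 h1.1 h2 h1.2.2
        obtain ⟨r, hr1, hr2⟩ := hall γ δ hm.arcR (hm.area.1.symm.trans (harc l).2)
        refine ⟨r, ?_⟩
        rw [hr1, hr2]
        exact hm
      mirR := by
        intro i r h0 hM' h1 h2
        obtain ⟨γ, δ, hm⟩ := exists_mir_right (harc r).1 h2 h1.2.1 h1.2.2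
        obtain ⟨l, hr1, hr2⟩ := hall γ δ hm.arcL (hm.area.1.trans (harc r).2)
        refine ⟨l, ?_⟩
        rw [hr1, hr2]
        exact hm
      side := fun i l r _ _ h => ⟨h.l2, h.r1⟩
      good := by
        intro i l r h0 hM' h
        have h1 := h.l2
        have h2 := h.r1
        exact ⟨⟨h.l1, by linarith, h.good⟩, ⟨by linarith, h.r2, h.good'⟩⟩
      ord := by
        intro i l r l' r' _ _ h h'
        rw [← fmono.lt_iff_lt, ← fmono.lt_iff_lt (a := r')]
        exact Mir.order h h' hK hL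
      clL := by
        intro i l l' _ _ h1 h2 h3
        have h4 := fmono h2
        exact ⟨by linarith [h1.1], by linarith,
          good_closer_left hK hL (harc l).1 (harc l').1 h1.1 h4 h3 h1.2.2⟩
      clR := by
        intro i r r' _ _ h1 h2 h3
        have h4 := fmono h2
        have h5 := arc_le (harc r').1 (harc r).1 h4
        have h6 := (harc r).1.lt
        exact ⟨by linarith, by linarith [h1.2.1],
          good_closer_right hK hL (harc r).1 (harc r').1 h3 h4 h1.2.1 h1.2.2⟩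
      cent := fun i l r _ _ h => h.area.2 }

/-- the levels of the pieces of the window -/
theorem ds_level {K L : Set (ℝ × ℝ)} (hK : IsBody K) (hL : IsBody L) {d : ℝ}
    (hd : ∀ x ∈ K ∪ L, ∀ y ∈ K ∪ L, ∀ ψ, lv ψ (x - y) ≤ d) {θ lo hi α β : ℝ}
    (top : hs K θ = hs L θ) (hα : lo ≤ α) (hβ : β ≤ hi) (hθ : θ ∈ Icc lo hi) {w : ℝ × ℝ}
    (hw : w ∈ DS K L α β) : hs K θ - d * (hi - lo) ≤ lv θ w := by
  have key : ∀ A B : Set (ℝ × ℝ), IsBody A → IsBody B →
      (∀ x ∈ A ∪ B, ∀ y ∈ A ∪ B, ∀ ψ, lv ψ (x - y) ≤ d) → w ∈ interior A →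
      (∃ ψ ∈ Ioo α β, hs B ψ < lv ψ w) → hs B θ - d * (hi - lo) ≤ lv θ w := by
    intro A B hA hB hdAB hwA ⟨ψ, hψ, hlt⟩
    obtain ⟨z, hz, hz'⟩ := exists_lv_eq_hs hB.compact (hB.nonempty.mono interior_subset) θ
    have h1 := lv_le_hs hB.compact ψ hz
    have h2 := lv_var (v := w - z) (hdAB w (Or.inl (interior_subset hwA)) z (Or.inr hz)) θ ψ
    rw [lv_sub, lv_sub] at h2
    have hd0 : 0 ≤ d := by
      have := hdAB w (Or.inl (interior_subset hwA)) w (Or.inl (interior_subset hwA)) 0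
      rw [sub_self] at this
      simpa [lv] using this
    have h3 : |θ - ψ| ≤ hi - lo := by
      rw [abs_le]
      constructor <;> linarith [hθ.1, hθ.2, hψ.1, hψ.2]
    have h4 := mul_le_mul_of_nonneg_left h3 hd0
    linarith
  rcases hw with ⟨h1, h2⟩ | ⟨h1, h2⟩
  · rw [top]
    exact key K L hK hL hd h1 h2
  · exact key L K hL hK (by rw [union_comm]; exact hd) h1 h2

/-- **Local chain theorem.**  Two bodies whose chords at the levels above `c i` have equal lengths at 165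
consecutive S-angles, the levels `c i` being below the pieces of the window, have the same support function in
the window. -/
theorem lc {N : ℕ} (hN : 5 ≤ N) {s : ℕ → ℝ} (hs' : Slopes N s) {K L : Set (ℝ × ℝ)}
    (hK : IsBody K) (hL : IsBody L) {d : ℝ}
    (hd : ∀ x ∈ K ∪ L, ∀ y ∈ K ∪ L, ∀ ψ, lv ψ (x - y) ≤ d) {i0 : ℤ} {c : ℤ → ℝ}
    (span : ang N s (i0 + 164) < ang N s i0 + Real.pi)
    (hdir : ∀ i, 0 ≤ i → i ≤ 164 → Dir K L (ang N s (i0 + i)) (c i))
    (hc : ∀ i, 0 ≤ i → i ≤ 164 →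
      c i + d * (ang N s (i0 + 164) - ang N s i0) < hs K (ang N s (i0 + i))) :
    ∀ ψ ∈ Icc (ang N s i0) (ang N s (i0 + 164)), hs K ψ = hs L ψ := by
  intro ψ hψ
  by_contra hne
  have hN0 : 0 < N := by omega
  have hmono := ang_strictMono hN0 hs'
  obtain ⟨f, e, AL, Mi, z, l0, hcomb, hl0, hl0'⟩ := exists_lcomb hK hL (φ := fun i => ang N s (i0 + i))
    (M := 164) (by norm_num) (fun i j hij => hmono (by omega)) (by simpa using span)
    (fun i h0 h1 => (hdir i h0 h1).top)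
    (by
      intro i h0 h1 α β hA hα hβ
      refine ⟨c i, hdir i h0 h1, fun w hw => ?_⟩
      have h2 := ds_level hK hL hd (θ := ang N s (i0 + i)) (lo := ang N s i0)
        (hi := ang N s (i0 + 164)) (hdir i h0 h1).top (by simpa using hα) hβ
        ⟨hmono.monotone (by omega), hmono.monotone (by omega)⟩ hw
      have h3 := hc i h0 h1
      linarith) (by simpa using hψ) hne
  obtain ⟨i, b, m, hi0, hiM, hb, hm, hodd, hm4, hwin⟩ := hcomb.window 20 (by norm_num) hl0 hl0'
  obtain ⟨hinj, hH1, σ, hMB⟩ := block_conditions hN hs' (i0 + i)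
  refine propA hinj hH1 σ hMB hm hodd hb hm4 (z := z)
    (c := fun j => -Real.sin (ang N s (i0 + i + ((j : ℕ) : ℤ)))) ?_ ?_
  · intro j
    exact neg_ne_zero.2 (ang_trig N s _).1
  · intro j l h1 h2
    obtain ⟨x, hx0, hx⟩ := hwin j l h1 (by push_cast; exact h2)
    refine ⟨x, hx0, ?_⟩
    rw [hx, ← add_assoc, pt_ang]
    rfl

end Pool.Agent.CRW
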