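import Pool.Agent.CRN.C1
import Pool.Agent.XA.C2
import Pool.Agent.XA.B3

/-!
# [CRW] Frames: two bodies with the same support function in a window
-/

set_option autoImplicit false
open MeasureTheory Set
open Pool.Agent.XA Pool.Agent.CRN

namespace Pool.Agent.CRW

/-- the support functions of `K` and `L` agree on `[a, b]`, and `Va`, `Vb` are extreme at `a`, `b` for one of the
two bodies and, seen from the window, not below extreme points of `K` and of `L` at `a`, `b` -/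
structure Fr (K L : Set (ℝ × ℝ)) (a b : ℝ) (Va Vb : ℝ × ℝ) : Prop where
  bK : IsBody K
  bL : IsBody L
  lt : a < b
  ltpi : b < a + Real.pi
  eqv : ∀ ψ ∈ Icc a b, hs K ψ = hs L ψ
  va : lv a Va = hs K a
  va' : Va ∈ K ∨ Va ∈ L
  vb : lv b Vb = hs K b
  vb' : Vb ∈ K ∨ Vb ∈ L
  ka : ∃ q ∈ K, lv a q = hs K a ∧ ∀ θ, a < θ → θ < a + Real.pi → lv θ q ≤ lv θ Va
  la : ∃ q ∈ L, lv a q = hs L a ∧ ∀ θ, a < θ → θ < a + Real.pi → lv θ q ≤ lv θ Va
  kb : ∃ q ∈ K, lv b q = hs K b ∧ ∀ θ, b - Real.pi < θ → θ < b → lv θ q ≤ lv θ Vb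
  lb : ∃ q ∈ L, lv b q = hs L b ∧ ∀ θ, b - Real.pi < θ → θ < b → lv θ q ≤ lv θ Vb

variable {K L : Set (ℝ × ℝ)} {a b : ℝ} {Va Vb : ℝ × ℝ}

theorem Fr.symm (h : Fr K L a b Va Vb) : Fr L K a b Va Vb where
  bK := h.bL
  bL := h.bK
  lt := h.lt
  ltpi := h.ltpi
  eqv := fun ψ hψ => (h.eqv ψ hψ).symm
  va := by rw [h.va]; exact h.eqv a ⟨le_refl _, h.lt.le⟩
  va' := h.va'.symm
  vb := by rw [h.vb]; exact h.eqv b ⟨h.lt.le, le_refl _⟩
  vb' := h.vb'.symm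
  ka := h.la
  la := h.ka
  kb := h.lb
  lb := h.kb

theorem Fr.eqa (h : Fr K L a b Va Vb) : hs K a = hs L a := h.eqv a ⟨le_refl _, h.lt.le⟩

theorem Fr.eqb (h : Fr K L a b Va Vb) : hs K b = hs L b := h.eqv b ⟨h.lt.le, le_refl _⟩

theorem exists_Fr (hK : IsBody K) (hL : IsBody L) (lt : a < b) (ltpi : b < a + Real.pi)
    (eqv : ∀ ψ ∈ Icc a b, hs K ψ = hs L ψ) : ∃ Va Vb, Fr K L a b Va Vb := by
  have ea := eqv a ⟨le_refl _, lt.le⟩
  have eb := eqv b ⟨lt.le, le_refl _⟩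
  obtain ⟨p, hp, hp'⟩ := exists_lv_eq_hs hK.compact (hK.nonempty.mono interior_subset) a
  obtain ⟨p1, hp1, hp1'⟩ := exists_lv_eq_hs hL.compact (hL.nonempty.mono interior_subset) a
  obtain ⟨q, hq, hq'⟩ := exists_lv_eq_hs hK.compact (hK.nonempty.mono interior_subset) b
  obtain ⟨q1, hq1, hq1'⟩ := exists_lv_eq_hs hL.compact (hL.nonempty.mono interior_subset) b
  have keyA : ∀ v w : ℝ × ℝ, lv a v = lv a w → tg a v ≤ tg a w → ∀ θ, a < θ → θ < a + Real.pi →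
      lv θ v ≤ lv θ w := by
    intro v w h1 h2 θ h3 h4
    have hs := sin_pos' h3 h4
    rw [lv_eq θ a v, lv_eq θ a w, h1]
    have := mul_le_mul_of_nonneg_right h2 hs.le
    linarith
  have keyB : ∀ v w : ℝ × ℝ, lv b v = lv b w → tg b w ≤ tg b v → ∀ θ, b - Real.pi < θ → θ < b →
      lv θ v ≤ lv θ w := by
    intro v w h1 h2 θ h3 h4
    have hs := sin_pos' h4 (by linarith)
    have e : Real.sin (θ - b) = -Real.sin (b - θ) := by rw [← Real.sin_neg, neg_sub]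
    rw [lv_eq θ b v, lv_eq θ b w, h1, e]
    have := mul_le_mul_of_nonneg_right h2 hs.le
    linarith
  have hA : ∃ Va, lv a Va = hs K a ∧ (Va ∈ K ∨ Va ∈ L) ∧
      (∃ q ∈ K, lv a q = hs K a ∧ ∀ θ, a < θ → θ < a + Real.pi → lv θ q ≤ lv θ Va) ∧
      (∃ q ∈ L, lv a q = hs L a ∧ ∀ θ, a < θ → θ < a + Real.pi → lv θ q ≤ lv θ Va) := by
    rcases le_total (tg a p) (tg a p1) with h | h
    · exact ⟨p1, by rw [hp1', ea], Or.inr hp1, ⟨p, hp, hp', keyA p p1 (by rw [hp', hp1', ea]) h⟩,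
        ⟨p1, hp1, hp1', fun θ _ _ => le_refl _⟩⟩
    · exact ⟨p, hp', Or.inl hp, ⟨p, hp, hp', fun θ _ _ => le_refl _⟩,
        ⟨p1, hp1, hp1', keyA p1 p (by rw [hp', hp1', ea]) h⟩⟩
  have hB : ∃ Vb, lv b Vb = hs K b ∧ (Vb ∈ K ∨ Vb ∈ L) ∧
      (∃ q ∈ K, lv b q = hs K b ∧ ∀ θ, b - Real.pi < θ → θ < b → lv θ q ≤ lv θ Vb) ∧
      (∃ q ∈ L, lv b q = hs L b ∧ ∀ θ, b - Real.pi < θ → θ < b → lv θ q ≤ lv θ Vb) := by
    rcases le_total (tg b q1) (tg b q) with h | h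
    · exact ⟨q1, by rw [hq1', eb], Or.inr hq1, ⟨q, hq, hq', keyB q q1 (by rw [hq', hq1', eb]) h⟩,
        ⟨q1, hq1, hq1', fun θ _ _ => le_refl _⟩⟩
    · exact ⟨q, hq', Or.inl hq, ⟨q, hq, hq', fun θ _ _ => le_refl _⟩,
        ⟨q1, hq1, hq1', keyB q1 q (by rw [hq', hq1', eb]) h⟩⟩
  obtain ⟨Va, a1, a2, a3, a4⟩ := hA
  obtain ⟨Vb, b1, b2, b3, b4⟩ := hB
  exact ⟨Va, Vb, hK, hL, lt, ltpi, eqv, a1, a2, b1, b2, a3, a4, b3, b4⟩

/-- points of `K \ L` seen from the right -/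
theorem Fr.seenB (h : Fr K L a b Va Vb) {θ ψ : ℝ} (hθ : θ ∈ Ioo a b) {w : ℝ × ℝ} (hw : w ∈ K)
    (hψ : ψ ∈ Ioo θ (θ + Real.pi)) (hlt : hs L ψ < lv ψ w) : lv θ w ≤ lv θ Vb := by
  by_contra hc
  push Not at hc
  have h1 := lv_le_hs h.bK.compact ψ hw
  have hψb : b < ψ := by
    by_contra hc'
    have := h.eqv ψ ⟨by linarith [hθ.1, hψ.1], not_lt.1 hc'⟩
    linarith
  obtain ⟨q, hq, hq1, hq2⟩ := h.lb
  have h2 := hq2 θ (by linarith [hθ.1, h.ltpi]) hθ.2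
  have h3 := lv_le_hs h.bL.compact ψ hq
  have h4 := lv_le_hs h.bK.compact b hw
  have h5 := lv_comb θ b ψ (w - q)
  rw [lv_sub, lv_sub, lv_sub] at h5
  have s1 := sin_pos' hψ.1 hψ.2
  have s2 := sin_pos' hψb (by linarith [hψ.2, hθ.2])
  have s3 := sin_pos' hθ.2 (by linarith [hθ.1, h.ltpi])
  have e := h.eqb
  have h6 : Real.sin (ψ - θ) * (lv b w - lv b q) ≤ 0 :=
    mul_nonpos_of_nonneg_of_nonpos s1.le (by linarith)
  have h7 : 0 < Real.sin (ψ - b) * (lv θ w - lv θ q) := mul_pos s2 (by linarith)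
  have h8 : 0 < Real.sin (b - θ) * (lv ψ w - lv ψ q) := mul_pos s3 (by linarith)
  linarith

/-- points of `K \ L` seen from the left -/
theorem Fr.seenA (h : Fr K L a b Va Vb) {θ ψ : ℝ} (hθ : θ ∈ Ioo a b) {w : ℝ × ℝ} (hw : w ∈ K)
    (hψ : ψ ∈ Ioo (θ - Real.pi) θ) (hlt : hs L ψ < lv ψ w) : lv θ w ≤ lv θ Va := by
  by_contra hc
  push Not at hc
  have h1 := lv_le_hs h.bK.compact ψ hw
  have hψa : ψ < a := by
    by_contra hc'
    have := h.eqv ψ ⟨not_lt.1 hc', by linarith [hθ.2, hψ.2]⟩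
    linarith
  obtain ⟨q, hq, hq1, hq2⟩ := h.la
  have h2 := hq2 θ hθ.1 (by linarith [hθ.2, h.ltpi])
  have h3 := lv_le_hs h.bL.compact ψ hq
  have h4 := lv_le_hs h.bK.compact a hw
  have h5 := lv_comb ψ a θ (w - q)
  rw [lv_sub, lv_sub, lv_sub] at h5
  have s1 := sin_pos' hψ.2 (by linarith [hψ.1])
  have s2 := sin_pos' hψa (by linarith [hψ.1, hθ.1])
  have s3 := sin_pos' hθ.1 (by linarith [hθ.2, h.ltpi])
  have e := h.eqa
  have h6 : Real.sin (θ - ψ) * (lv a w - lv a q) ≤ 0 :=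
    mul_nonpos_of_nonneg_of_nonpos s1.le (by linarith)
  have h7 : 0 < Real.sin (a - ψ) * (lv θ w - lv θ q) := mul_pos s2 (by linarith)
  have h8 : 0 < Real.sin (θ - a) * (lv ψ w - lv ψ q) := mul_pos s3 (by linarith)
  linarith

theorem Fr.le_aux (h : Fr K L a b Va Vb) {θ : ℝ} (hθ : θ ∈ Ioo a b) {w : ℝ × ℝ} (hw : w ∈ K)
    (hw' : w ∉ L) : lv θ w ≤ max (lv θ Va) (lv θ Vb) := by
  by_cases hb : -hs L (θ + Real.pi) ≤ lv θ w
  · have ht : lv θ w ≤ hs L θ := by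
      rw [← h.eqv θ ⟨hθ.1.le, hθ.2.le⟩]
      exact lv_le_hs h.bK.compact θ hw
    obtain ⟨ψ, h1, h2 | h2⟩ := exists_sep_side h.bL hw' θ ht hb
    · exact (h.seenA hθ hw h2 h1).trans (le_max_left _ _)
    · exact (h.seenB hθ hw h2 h1).trans (le_max_right _ _)
  · obtain ⟨q, hq, -, hq2⟩ := h.lb
    have h2 := hq2 θ (by linarith [hθ.1, h.ltpi]) hθ.2
    have h3 := neg_hs_le_lv h.bL.compact θ hq
    exact le_trans (by linarith) (le_max_right _ _)

/-- the symmetric difference is not above `Va` and `Vb` -/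
theorem Fr.le (h : Fr K L a b Va Vb) {θ : ℝ} (hθ : θ ∈ Ioo a b) :
    ∀ w ∈ closure (SD K L), lv θ w ≤ max (lv θ Va) (lv θ Vb) := by
  have hcl : IsClosed {w : ℝ × ℝ | lv θ w ≤ max (lv θ Va) (lv θ Vb)} :=
    isClosed_le (continuous_lv_right θ) continuous_const
  refine fun w hw => closure_minimal (fun v hv => ?_) hcl hw
  have hv' : ¬ (v ∈ K ↔ v ∈ L) := hv
  by_cases h1 : v ∈ K
  · exact h.le_aux hθ h1 (fun h2 => hv' ⟨fun _ => h2, fun _ => h1⟩)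
  · by_cases h2 : v ∈ L
    · exact h.symm.le_aux hθ h2 h1
    · exact absurd ⟨fun h3 => absurd h3 h1, fun h3 => absurd h3 h2⟩ hv'

theorem Fr.endB_aux (h : Fr K L a b Va Vb) {θ m : ℝ} (hθ : θ ∈ Ioo a b) {w : ℝ × ℝ} (hw : w ∈ K)
    (hw' : w ∉ L) (hm : pt θ (lv θ w) m ∈ L) (hm' : m < tg θ w) : lv θ w ≤ lv θ Vb := by
  have ht : lv θ w ≤ hs L θ := by
    rw [← h.eqv θ ⟨hθ.1.le, hθ.2.le⟩]
    exact lv_le_hs h.bK.compact θ hw
  have hb := neg_hs_le_lv h.bL.compact θ hm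
  rw [lv_pt] at hb
  obtain ⟨ψ, h1, h2 | h2⟩ := exists_sep_side h.bL hw' θ ht hb
  · have := type_left h.bL.compact h2 h1 hm (by rw [lv_pt])
    rw [tg_pt] at this
    linarith
  · exact h.seenB hθ hw h2 h1

theorem Fr.endA_aux (h : Fr K L a b Va Vb) {θ m : ℝ} (hθ : θ ∈ Ioo a b) {w : ℝ × ℝ} (hw : w ∈ K)
    (hw' : w ∉ L) (hm : pt θ (lv θ w) m ∈ L) (hm' : tg θ w < m) : lv θ w ≤ lv θ Va := by
  have ht : lv θ w ≤ hs L θ := by
    rw [← h.eqv θ ⟨hθ.1.le, hθ.2.le⟩]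
    exact lv_le_hs h.bK.compact θ hw
  have hb := neg_hs_le_lv h.bL.compact θ hm
  rw [lv_pt] at hb
  obtain ⟨ψ, h1, h2 | h2⟩ := exists_sep_side h.bL hw' θ ht hb
  · exact h.seenA hθ hw h2 h1
  · have := type_right h.bL.compact h2 h1 hm (by rw [lv_pt])
    rw [tg_pt] at this
    linarith

/-- a right end of the top of the symmetric difference is not above `Vb` -/
theorem Fr.endB (h : Fr K L a b Va Vb) {θ T : ℝ} (hθ : θ ∈ Ioo a b)
    (hN : ∀ w ∈ closure (SD K L), lv θ w ≤ T) (hT : T < hs K θ) {x : ℝ × ℝ}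
    (hx : x ∈ closure (SD K L)) (hxT : lv θ x = T) (hB : EndB K θ x) : T ≤ lv θ Vb := by
  by_contra hc
  push Not at hc
  have hθ1 : b - Real.pi < θ := by linarith [hθ.1, h.ltpi]
  have hTL : T < hs L θ := by rw [← h.eqv θ ⟨hθ.1.le, hθ.2.le⟩]; exact hT
  have hk : -hs K (θ + Real.pi) < T := by
    obtain ⟨q, hq, -, hq2⟩ := h.kb
    have h2 := hq2 θ hθ1 hθ.2
    have h3 := neg_hs_le_lv h.bK.compact θ hq
    linarith
  have hl : -hs L (θ + Real.pi) < T := by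
    obtain ⟨q, hq, -, hq2⟩ := h.lb
    have h2 := hq2 θ hθ1 hθ.2
    have h3 := neg_hs_le_lv h.bL.compact θ hq
    linarith
  obtain ⟨a', b', hab, e1, e2, e3, e4⟩ := chords_T h.bK h.bL hN hT hTL hk hl
  have hmb : (a' + b') / 2 ∈ Ioo a' b' := ⟨by linarith, by linarith⟩
  have m1 : pt θ T ((a' + b') / 2) ∈ interior K := by
    have : (a' + b') / 2 ∈ {t : ℝ | pt θ T t ∈ interior K} := by rw [e3]; exact hmb
    exact this
  have m2 : pt θ T ((a' + b') / 2) ∈ interior L := by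
    have : (a' + b') / 2 ∈ {t : ℝ | pt θ T t ∈ interior L} := by rw [e4]; exact hmb
    exact this
  have hxB : (a' + b') / 2 < tg θ x := by
    have h1 := lt_of_endB hB m1 (by rw [lv_pt, hxT])
    rwa [tg_pt] at h1
  have hc1 : Continuous fun w : ℝ × ℝ => pt θ (lv θ w) ((a' + b') / 2) := by
    unfold pt lv
    fun_prop
  have hO : IsOpen {w : ℝ × ℝ | pt θ (lv θ w) ((a' + b') / 2) ∈ interior K ∩ interior L ∧
      (a' + b') / 2 < tg θ w ∧ lv θ Vb < lv θ w} :=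
    ((isOpen_interior.inter isOpen_interior).preimage hc1).inter
      ((isOpen_lt continuous_const (continuous_tg_right θ)).inter
        (isOpen_lt continuous_const (continuous_lv_right θ)))
  obtain ⟨w, ⟨hw1, hw2, hw3⟩, hw⟩ := mem_closure_iff.1 hx _ hO
    ⟨by rw [hxT]; exact ⟨m1, m2⟩, hxB, by rw [hxT]; exact hc⟩
  have hv' : ¬ (w ∈ K ↔ w ∈ L) := hw
  by_cases h1 : w ∈ K
  · have := h.endB_aux hθ h1 (fun h2 => hv' ⟨fun _ => h2, fun _ => h1⟩) (interior_subset hw1.2) hw2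
    linarith
  · by_cases h2 : w ∈ L
    · have := h.symm.endB_aux hθ h2 h1 (interior_subset hw1.1) hw2
      linarith
    · exact absurd ⟨fun h3 => absurd h3 h1, fun h3 => absurd h3 h2⟩ hv'

/-- a left end of the top of the symmetric difference is not above `Va` -/
theorem Fr.endA (h : Fr K L a b Va Vb) {θ T : ℝ} (hθ : θ ∈ Ioo a b)
    (hN : ∀ w ∈ closure (SD K L), lv θ w ≤ T) (hT : T < hs K θ) {x : ℝ × ℝ}
    (hx : x ∈ closure (SD K L)) (hxT : lv θ x = T) (hA : EndA K θ x) : T ≤ lv θ Va := by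
  by_contra hc
  push Not at hc
  have hθ1 : θ < a + Real.pi := by linarith [hθ.2, h.ltpi]
  have hTL : T < hs L θ := by rw [← h.eqv θ ⟨hθ.1.le, hθ.2.le⟩]; exact hT
  have hk : -hs K (θ + Real.pi) < T := by
    obtain ⟨q, hq, -, hq2⟩ := h.ka
    have h2 := hq2 θ hθ.1 hθ1
    have h3 := neg_hs_le_lv h.bK.compact θ hq
    linarith
  have hl : -hs L (θ + Real.pi) < T := by
    obtain ⟨q, hq, -, hq2⟩ := h.la
    have h2 := hq2 θ hθ.1 hθ1
    have h3 := neg_hs_le_lv h.bL.compact θ hq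
    linarith
  obtain ⟨a', b', hab, e1, e2, e3, e4⟩ := chords_T h.bK h.bL hN hT hTL hk hl
  have hmb : (a' + b') / 2 ∈ Ioo a' b' := ⟨by linarith, by linarith⟩
  have m1 : pt θ T ((a' + b') / 2) ∈ interior K := by
    have : (a' + b') / 2 ∈ {t : ℝ | pt θ T t ∈ interior K} := by rw [e3]; exact hmb
    exact this
  have m2 : pt θ T ((a' + b') / 2) ∈ interior L := by
    have : (a' + b') / 2 ∈ {t : ℝ | pt θ T t ∈ interior L} := by rw [e4]; exact hmb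
    exact this
  have hxB : tg θ x < (a' + b') / 2 := by
    have h1 := lt_of_endA hA m1 (by rw [lv_pt, hxT])
    rwa [tg_pt] at h1
  have hc1 : Continuous fun w : ℝ × ℝ => pt θ (lv θ w) ((a' + b') / 2) := by
    unfold pt lv
    fun_prop
  have hO : IsOpen {w : ℝ × ℝ | pt θ (lv θ w) ((a' + b') / 2) ∈ interior K ∩ interior L ∧
      tg θ w < (a' + b') / 2 ∧ lv θ Va < lv θ w} :=
    ((isOpen_interior.inter isOpen_interior).preimage hc1).inter
      ((isOpen_lt (continuous_tg_right θ) continuous_const).inter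
        (isOpen_lt continuous_const (continuous_lv_right θ)))
  obtain ⟨w, ⟨hw1, hw2, hw3⟩, hw⟩ := mem_closure_iff.1 hx _ hO
    ⟨by rw [hxT]; exact ⟨m1, m2⟩, hxB, by rw [hxT]; exact hc⟩
  have hv' : ¬ (w ∈ K ↔ w ∈ L) := hw
  by_cases h1 : w ∈ K
  · have := h.endA_aux hθ h1 (fun h2 => hv' ⟨fun _ => h2, fun _ => h1⟩) (interior_subset hw1.2) hw2
    linarith
  · by_cases h2 : w ∈ L
    · have := h.symm.endA_aux hθ h2 h1 (interior_subset hw1.1) hw2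
      linarith
    · exact absurd ⟨fun h3 => absurd h3 h1, fun h3 => absurd h3 h2⟩ hv'

/-- the same point at two angles, right ends -/
theorem Fr.idB (h : Fr K L a b Va Vb) (hVb : Vb ∈ K) {θ θ' : ℝ} (h1 : θ < θ') (hθ : a < θ)
    (hθ' : θ' < b) {x x' : ℝ × ℝ} (hx : x ∈ K) (hx' : x' ∈ K) (hB : EndB K θ x)
    (hB' : EndB K θ' x') (l1 : lv θ x ≤ lv θ Vb) (l2 : lv θ' x' ≤ lv θ' Vb)
    (a3 : lv θ x' ≤ lv θ x) (a4 : lv θ' x ≤ lv θ' x') : x = x' := by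
  have hpi := h.ltpi
  -- equality of levels with `Vb` forces equality
  have key : ∀ χ, a < χ → χ < b → ∀ y ∈ K, EndB K χ y → lv χ y = lv χ Vb → y = Vb := by
    intro χ c1 c2 y hy hBy he
    have h3 := hBy Vb hVb he.symm
    have h4 := lv_le_hs h.bK.compact b hy
    rw [← h.vb, lv_eq b χ y, lv_eq b χ Vb, he] at h4
    have hs := sin_pos' c2 (by linarith)
    have h5 : tg χ y ≤ tg χ Vb := by
      by_contra hc
      have := mul_lt_mul_of_pos_right (not_le.1 hc) hs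
      linarith
    exact eq_of_lv_tg he (le_antisymm h5 h3)
  rcases lt_or_eq_of_le l1 with m1 | m1
  · rcases lt_or_eq_of_le l2 with m2 | m2
    · exact id_B h.bK.convex h1 (by linarith) hVb hx' m1 m2 a3 a4 hB
    · have e := key θ' (by linarith) hθ' x' hx' hB' m2
      rw [e] at a3
      linarith
  · have e := key θ hθ (by linarith) x hx hB m1
    rw [e] at a4
    have e' := key θ' (by linarith) hθ' x' hx' hB' (le_antisymm l2 a4)
    rw [e, e']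

/-- the same point at two angles, left ends -/
theorem Fr.idA (h : Fr K L a b Va Vb) (hVa : Va ∈ K) {θ θ' : ℝ} (h1 : θ < θ') (hθ : a < θ)
    (hθ' : θ' < b) {x x' : ℝ × ℝ} (hx : x ∈ K) (hx' : x' ∈ K) (hA : EndA K θ x)
    (hA' : EndA K θ' x') (l1 : lv θ x ≤ lv θ Va) (l2 : lv θ' x' ≤ lv θ' Va)
    (a3 : lv θ x' ≤ lv θ x) (a4 : lv θ' x ≤ lv θ' x') : x = x' := by
  have hpi := h.ltpi
  have key : ∀ χ, a < χ → χ < b → ∀ y ∈ K, EndA K χ y → lv χ y = lv χ Va → y = Va := by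
    intro χ c1 c2 y hy hAy he
    have h3 := hAy Va hVa he.symm
    have h4 := lv_le_hs h.bK.compact a hy
    rw [← h.va, lv_eq a χ y, lv_eq a χ Va, he] at h4
    have hs := sin_pos' c1 (by linarith)
    have e : Real.sin (a - χ) = -Real.sin (χ - a) := by rw [← Real.sin_neg, neg_sub]
    rw [e] at h4
    have h5 : tg χ Va ≤ tg χ y := by
      by_contra hc
      have := mul_lt_mul_of_pos_right (not_le.1 hc) hs
      linarith
    exact eq_of_lv_tg he (le_antisymm h3 h5)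
  rcases lt_or_eq_of_le l2 with m2 | m2
  · rcases lt_or_eq_of_le l1 with m1 | m1
    · exact id_A h.bK.convex h1 (by linarith) hVa hx m1 m2 a3 a4 hA'
    · have e := key θ hθ (by linarith) x hx hA m1
      rw [e] at a4
      linarith
  · have e := key θ' (by linarith) hθ' x' hx' hA' m2
    rw [e] at a3
    have e' := key θ hθ (by linarith) x hx hA (le_antisymm l1 a3)
    rw [e, e']

/-- membership of `Vb` in both bodies -/
theorem Fr.mem_of_le (h : Fr K L a b Va Vb) {θ T : ℝ} (hθ : θ ∈ Ioo a b)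
    (hN : ∀ w ∈ closure (SD K L), lv θ w ≤ T) (hT : T < hs K θ) {v : ℝ × ℝ}
    (hv : v ∈ K ∨ v ∈ L) (hvT : T ≤ lv θ v) : v ∈ K ∧ v ∈ L := by
  have hTL : T < hs L θ := by rw [← h.eqv θ ⟨hθ.1.le, hθ.2.le⟩]; exact hT
  have := agree_ge h.bK h.bL hN hT hTL hvT
  rcases hv with hv | hv
  · exact ⟨hv, this.1 hv⟩
  · exact ⟨this.2 hv, hv⟩

end Pool.Agent.CRW
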