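import Pool.Agent.CRW.W3

/-!
# [CRW] Clean windows
-/

set_option autoImplicit false
open MeasureTheory Set
open Pool.Agent.XA Pool.Agent.CRN

namespace Pool.Agent.CRW

variable {K L : Set (ℝ × ℝ)} {a b : ℝ} {Va Vb : ℝ × ℝ}

/-- a point which is extreme at two angles is extreme in between -/
theorem top_between {M : Set (ℝ × ℝ)} (hM : IsBody M) {x y θ : ℝ} (hxy : x < y)
    (hpi : y < x + Real.pi) {V : ℝ × ℝ} (hx : lv x V = hs M x) (hy : lv y V = hs M y)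
    (hθ : θ ∈ Icc x y) : hs M θ ≤ lv θ V := by
  obtain ⟨w, hw, e⟩ := exists_lv_eq_hs hM.compact (hM.nonempty.mono interior_subset) θ
  rw [← e]
  have h1 := lv_le_hs hM.compact x hw
  have h2 := lv_le_hs hM.compact y hw
  have h3 := lv_comb x θ y w
  have h4 := lv_comb x θ y V
  have s0 := sin_pos' hxy hpi
  have s1 : 0 ≤ Real.sin (y - θ) :=
    Real.sin_nonneg_of_nonneg_of_le_pi (by linarith [hθ.2]) (by linarith [hθ.1])
  have s2 : 0 ≤ Real.sin (θ - x) :=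
    Real.sin_nonneg_of_nonneg_of_le_pi (by linarith [hθ.1]) (by linarith [hθ.2])
  have h5 : Real.sin (y - θ) * lv x w ≤ Real.sin (y - θ) * lv x V :=
    mul_le_mul_of_nonneg_left (by linarith) s1
  have h6 : Real.sin (θ - x) * lv y w ≤ Real.sin (θ - x) * lv y V :=
    mul_le_mul_of_nonneg_left (by linarith) s2
  exact le_of_mul_le_mul_left (by linarith) s0

theorem Fr.le_hs (h : Fr K L a b Va Vb) {θ : ℝ} (hθ : θ ∈ Icc a b) {V : ℝ × ℝ}
    (hV : V ∈ K ∨ V ∈ L) : lv θ V ≤ hs K θ := by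
  rcases hV with hV | hV
  · exact lv_le_hs h.bK.compact θ hV
  · rw [h.eqv θ hθ]
    exact lv_le_hs h.bL.compact θ hV

/-- the corner case: `V` is extreme on `[x, y]` -/
theorem Fr.corner (h : Fr K L a b Va Vb) {S : Set ℝ}
    (hvis : ∀ θ ∈ S, θ ∈ Ioo a b → ∃ c0 < hs K θ, ∀ c, c0 < c → c < hs K θ →
      volume {t : ℝ | pt θ c t ∈ K} = volume {t : ℝ | pt θ c t ∈ L}) {V : ℝ × ℝ}
    (hV : V ∈ K ∨ V ∈ L) {x y : ℝ} (hax : a ≤ x) (hxy : x < y) (hyb : y ≤ b)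
    (hx : lv x V = hs K x) (hy : lv y V = hs K y) {u v p q : ℝ} (hu : x < u) (huv : u < v)
    (hv : v < y) (hp : p ∈ S) (hq : q ∈ S) (hp' : p ∈ Icc u v) (hq' : q ∈ Icc u v) (hpq : p < q) :
    Fr K L x y V V ∧ ∀ θ ∈ S, θ ∈ Icc u v → ∃ c < hs K θ, ∀ w ∈ closure (SD K L), lv θ w ≤ c := by
  have hpi := h.ltpi
  have hlt : y < x + Real.pi := by linarith
  have hall : ∀ θ ∈ Icc x y, lv θ V = hs K θ := fun θ hθ =>
    le_antisymm (h.le_hs ⟨hax.trans hθ.1, hθ.2.trans hyb⟩ hV) (top_between h.bK hxy hlt hx hy hθ)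
  have hallL : ∀ θ ∈ Icc x y, lv θ V = hs L θ := fun θ hθ => by
    rw [hall θ hθ]
    exact h.eqv θ ⟨hax.trans hθ.1, hθ.2.trans hyb⟩
  have hVK : V ∈ K := mem_of_three h.bK hu (by linarith : u < y) hlt (hall x ⟨le_refl _, hxy.le⟩)
    (hall u ⟨hu.le, by linarith⟩) (hall y ⟨hxy.le, le_refl _⟩)
  have hVL : V ∈ L := mem_of_three h.bL hu (by linarith : u < y) hlt (hallL x ⟨le_refl _, hxy.le⟩)
    (hallL u ⟨hu.le, by linarith⟩) (hallL y ⟨hxy.le, le_refl _⟩)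
  have topK : ∀ θ, x < θ → θ < y → Top K θ V := fun θ h1 h2 =>
    ⟨hVK, fun w hw hne => by
      by_contra hc
      rw [not_lt, hall θ ⟨h1.le, h2.le⟩] at hc
      exact hne (top_unique h.bK.compact h1 h2 hlt (hall x ⟨le_refl _, hxy.le⟩)
        (hall θ ⟨h1.le, h2.le⟩) (hall y ⟨hxy.le, le_refl _⟩) hw hc)⟩
  have topL : ∀ θ, x < θ → θ < y → Top L θ V := fun θ h1 h2 =>
    ⟨hVL, fun w hw hne => by
      by_contra hc
      rw [not_lt, hallL θ ⟨h1.le, h2.le⟩] at hc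
      exact hne (top_unique h.bL.compact h1 h2 hlt (hallL x ⟨le_refl _, hxy.le⟩)
        (hallL θ ⟨h1.le, h2.le⟩) (hallL y ⟨hxy.le, le_refl _⟩) hw hc)⟩
  refine ⟨⟨h.bK, h.bL, hxy, hlt, fun ψ hψ => h.eqv ψ ⟨hax.trans hψ.1, hψ.2.trans hyb⟩, hx,
    Or.inl hVK, hy, Or.inl hVK, ⟨V, hVK, hx, fun _ _ _ => le_refl _⟩,
    ⟨V, hVL, hallL x ⟨le_refl _, hxy.le⟩, fun _ _ _ => le_refl _⟩,
    ⟨V, hVK, hy, fun _ _ _ => le_refl _⟩,
    ⟨V, hVL, hallL y ⟨hxy.le, le_refl _⟩, fun _ _ _ => le_refl _⟩⟩, fun θ _ hθ => ?_⟩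
  obtain ⟨c0, hc0, hc0'⟩ := hvis p hp ⟨by linarith [hp'.1], by linarith [hp'.2]⟩
  obtain ⟨c1, hc1, hc1'⟩ := hvis q hq ⟨by linarith [hq'.1], by linarith [hq'.2]⟩
  have ep := hall p ⟨by linarith [hp'.1], by linarith [hp'.2]⟩
  have eq := hall q ⟨by linarith [hq'.1], by linarith [hq'.2]⟩
  rw [← ep] at hc0 hc0'
  rw [← eq] at hc1 hc1'
  have xp : x < p := by linarith [hp'.1]
  have py : p < y := by linarith [hp'.2]
  have xq : x < q := by linarith [hq'.1]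
  have qy : q < y := by linarith [hq'.2]
  obtain ⟨O, hO, hVO, hag⟩ := bl h.bK h.bL hpq (by linarith) (topK p xp py) (topL p xp py)
    (topK q xq qy) (topL q xq qy) hc0 hc1 hc0' hc1'
  have xθ : x < θ := by linarith [hθ.1]
  have θy : θ < y := by linarith [hθ.2]
  obtain ⟨c, h1, h2⟩ := above_of_near h.bK.compact h.bL.compact hO hVO hag (topK θ xθ θy)
    (topL θ xθ θy)
  rw [hall θ ⟨xθ.le, θy.le⟩] at h1
  exact ⟨c, h1, closure_le_of_agree h2⟩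

/-- **Clean windows.**  In one of three parts of the window the symmetric difference stays strictly below the
extreme level, for all angles of `S`. -/
theorem Fr.clean (h : Fr K L a b Va Vb) {S : Set ℝ}
    (hvis : ∀ θ ∈ S, θ ∈ Ioo a b → ∃ c0 < hs K θ, ∀ c, c0 < c → c < hs K θ →
      volume {t : ℝ | pt θ c t ∈ K} = volume {t : ℝ | pt θ c t ∈ L})
    {c1 c2 c3 c4 c5 c6 : ℝ} (o1 : a < c1) (o2 : c1 < c2) (o3 : c2 < c3) (o4 : c3 < c4)
    (o5 : c4 < c5) (o6 : c5 < c6) (o7 : c6 < b)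
    (hA : ∃ p ∈ S, ∃ q ∈ S, p ∈ Icc c1 c2 ∧ q ∈ Icc c1 c2 ∧ p < q)
    (hB : ∃ p ∈ S, ∃ q ∈ S, p ∈ Icc c5 c6 ∧ q ∈ Icc c5 c6 ∧ p < q) :
    ∃ u v a' b' Va' Vb', ((u = c1 ∧ v = c2) ∨ (u = c3 ∧ v = c4) ∨ (u = c5 ∧ v = c6)) ∧
      Fr K L a' b' Va' Vb' ∧ a' < u ∧ v < b' ∧
      ∀ θ ∈ S, θ ∈ Icc u v → ∃ c < hs K θ, ∀ w ∈ closure (SD K L), lv θ w ≤ c := by
  have hpi := h.ltpi
  by_cases h1 : lv c4 Vb = hs K c4
  · obtain ⟨p, hp, q, hq, hp', hq', hpq⟩ := hB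
    obtain ⟨f1, f2⟩ := h.corner hvis h.vb' (x := c4) (y := b) (by linarith) (by linarith)
      (le_refl _) h1 h.vb (u := c5) (v := c6) o5 o6 o7 hp hq hp' hq' hpq
    exact ⟨c5, c6, c4, b, Vb, Vb, Or.inr (Or.inr ⟨rfl, rfl⟩), f1, o5, o7, f2⟩
  · by_cases h2 : lv c3 Va = hs K c3
    · obtain ⟨p, hp, q, hq, hp', hq', hpq⟩ := hA
      obtain ⟨f1, f2⟩ := h.corner hvis h.va' (x := a) (y := c3) (le_refl _) (by linarith)
        (by linarith) h.va h2 (u := c1) (v := c2) o1 o2 o3 hp hq hp' hq' hpq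
      exact ⟨c1, c2, a, c3, Va, Va, Or.inl ⟨rfl, rfl⟩, f1, o1, o3, f2⟩
    · refine ⟨c3, c4, a, b, Va, Vb, Or.inr (Or.inl ⟨rfl, rfl⟩), h, by linarith, by linarith,
        fun θ _ hθ => ⟨max (lv θ Va) (lv θ Vb), max_lt ?_ ?_,
          h.le ⟨by linarith [hθ.1], by linarith [hθ.2]⟩⟩⟩
      · refine lt_of_le_of_ne (h.le_hs ⟨by linarith [hθ.1], by linarith [hθ.2]⟩ h.va') fun e => ?_
        exact h2 (le_antisymm (h.le_hs ⟨by linarith, by linarith⟩ h.va')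
          (top_between h.bK (x := a) (y := θ) (by linarith [hθ.1]) (by linarith [hθ.2]) h.va e
            ⟨by linarith, hθ.1⟩))
      · refine lt_of_le_of_ne (h.le_hs ⟨by linarith [hθ.1], by linarith [hθ.2]⟩ h.vb') fun e => ?_
        exact h1 (le_antisymm (h.le_hs ⟨by linarith, by linarith⟩ h.vb')
          (top_between h.bK (x := θ) (y := b) (by linarith [hθ.2]) (by linarith [hθ.1]) e h.vb
            ⟨hθ.2, by linarith⟩))

end Pool.Agent.CRW
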