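import Pool.Agent.CRW.W4
import Pool.Agent.XA.B5

/-!
# [CRW] The outer bodies in a clean window
-/

set_option autoImplicit false
open MeasureTheory Set
open Pool.Agent.XA Pool.Agent.CRN

namespace Pool.Agent.CRW

/-- the situation: `[u, v]` is a clean part of the window of the outer bodies, the holes are at depth `ρ` at the
angles of `S`, and the inner body has extreme points at which it contains horizontal segments of half-length `ρ'`
inside `K` -/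
structure Cw (K P L Q : Set (ℝ × ℝ)) (S : Set ℝ) (a b : ℝ) (Va Vb : ℝ × ℝ) (u v d ρ ρ' : ℝ) :
    Prop where
  fr : Fr K L a b Va Vb
  bP : IsBody P
  bQ : IsBody Q
  hPK : P ⊆ interior K
  hQL : Q ⊆ interior L
  hX : ∀ θ ∈ S, ∀ c, volume {t : ℝ | pt θ c t ∈ K \ interior P} =
    volume {t : ℝ | pt θ c t ∈ L \ interior Q}
  au : a < u
  vb : v < b
  uv : u < v
  clean : ∀ θ ∈ S, θ ∈ Icc u v → ∃ c < hs K θ, ∀ w ∈ closure (SD K L), lv θ w ≤ c
  depth : ∀ θ ∈ S, θ ∈ Icc u v → ∀ y, (y ∈ P ∨ y ∈ Q) → lv θ y + ρ ≤ hs K θ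
  dd : ∀ x ∈ K ∪ L, ∀ y ∈ K ∪ L, ∀ ψ, lv ψ (x - y) ≤ d
  dρ : d * (v - u) < ρ
  ball : ∀ θ ∈ S, θ ∈ Icc u v → ∃ z ∈ P, lv θ z = hs P θ ∧
    ∀ t, |t| ≤ ρ' → pt θ (lv θ z) (tg θ z + t) ∈ interior K
  ρ'0 : 0 ≤ ρ'

variable {K P L Q : Set (ℝ × ℝ)} {S : Set ℝ} {a b : ℝ} {Va Vb : ℝ × ℝ} {u v d ρ ρ' : ℝ}

theorem Cw.io (s : Cw K P L Q S a b Va Vb u v d ρ ρ') {θ : ℝ} (hθ : θ ∈ Icc u v) :
    θ ∈ Ioo a b := ⟨s.au.trans_le hθ.1, hθ.2.trans_lt s.vb⟩

theorem Cw.eq (s : Cw K P L Q S a b Va Vb u v d ρ ρ') {θ : ℝ} (hθ : θ ∈ Icc u v) :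
    hs K θ = hs L θ := s.fr.eqv θ ⟨(s.io hθ).1.le, (s.io hθ).2.le⟩

theorem Cw.pi (s : Cw K P L Q S a b Va Vb u v d ρ ρ') {θ θ' : ℝ} (hθ : θ ∈ Icc u v)
    (hθ' : θ' ∈ Icc u v) : θ' < θ + Real.pi := by
  have := s.io hθ
  have := s.io hθ'
  have := s.fr.ltpi
  simp only [mem_Ioo] at *
  linarith

theorem Cw.nonneg (s : Cw K P L Q S a b Va Vb u v d ρ ρ') : 0 ≤ d := by
  obtain ⟨x, hx⟩ := s.fr.bK.nonempty
  have := s.dd x (Or.inl (interior_subset hx)) x (Or.inl (interior_subset hx)) 0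
  rw [sub_self] at this
  simpa [lv] using this

/-- levels of differences at two angles of the window -/
theorem Cw.var (s : Cw K P L Q S a b Va Vb u v d ρ ρ') {x y : ℝ × ℝ} (hx : x ∈ K ∪ L)
    (hy : y ∈ K ∪ L) {θ θ' : ℝ} (hθ : θ ∈ Icc u v) (hθ' : θ' ∈ Icc u v) :
    lv θ x - lv θ y - d * (v - u) ≤ lv θ' x - lv θ' y := by
  have h1 := lv_var (v := x - y) (s.dd x hx y hy) θ' θ
  rw [lv_sub, lv_sub] at h1
  have h2 : |θ' - θ| ≤ v - u := by
    rw [abs_le]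
    constructor <;> linarith [hθ.1, hθ.2, hθ'.1, hθ'.2]
  have h3 := mul_le_mul_of_nonneg_left h2 s.nonneg
  linarith

theorem Cw.inU (s : Cw K P L Q S a b Va Vb u v d ρ ρ') {z : ℝ × ℝ} (hz : z ∈ P ∨ z ∈ Q) :
    z ∈ K ∪ L := by
  rcases hz with hz | hz
  · exact Or.inl (interior_subset (s.hPK hz))
  · exact Or.inr (interior_subset (s.hQL hz))

/-- the extreme level of the symmetric difference of the outer bodies -/
theorem Cw.top_pair (s : Cw K P L Q S a b Va Vb u v d ρ ρ') {θ : ℝ} (hS : θ ∈ S)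
    (hθ : θ ∈ Icc u v) {x : ℝ × ℝ} (hx : x ∈ closure (SD K L)) :
    ∃ T, T < hs K θ ∧ T < hs L θ ∧ lv θ x ≤ T ∧ (∀ w ∈ closure (SD K L), lv θ w ≤ T) ∧
      ∃ A ∈ closure (SD K L), ∃ B ∈ closure (SD K L), lv θ A = T ∧ lv θ B = T ∧
      (∀ w ∈ closure (SD K L), lv θ w = T → tg θ A ≤ tg θ w) ∧
      (∀ w ∈ closure (SD K L), lv θ w = T → tg θ w ≤ tg θ B) := by
  obtain ⟨T, hT, A, hA, B, hB, eA, eB, mA, mB⟩ :=
    ext_pair (isCompact_closure_SD s.fr.bK.compact s.fr.bL.compact) ⟨x, hx⟩ θ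
  obtain ⟨c, hc1, hc2⟩ := s.clean θ hS hθ
  have hTK : T < hs K θ := by
    rw [← eA]
    exact (hc2 A hA).trans_lt hc1
  exact ⟨T, hTK, by rwa [← s.eq hθ], hT x hx, hT, A, hA, B, hB, eA, eB, mA, mB⟩

/-- if the symmetric difference of the outer bodies is seen above both inner bodies, then it contains both
ends of a slice -/
theorem Cw.ex_ends (s : Cw K P L Q S a b Va Vb u v d ρ ρ') {θ : ℝ} (hS : θ ∈ S)
    (hθ : θ ∈ Icc u v) {x : ℝ × ℝ} (hx : x ∈ closure (SD K L))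
    (hx' : max (hs P θ) (hs Q θ) < lv θ x) :
    ∃ T, (∀ w ∈ closure (SD K L), lv θ w ≤ T) ∧
      ∃ A ∈ closure (SD K L), ∃ B ∈ closure (SD K L), lv θ A = T ∧ lv θ B = T ∧ A ≠ B ∧
        A ∈ K ∧ B ∈ K ∧ EndA K θ A ∧ EndB K θ B ∧ T ≤ lv θ Va ∧ T ≤ lv θ Vb ∧ Va ∈ K ∧ Vb ∈ K := by
  obtain ⟨T, hTK, hTL, hxT, hT, A, hA, B, hB, eA, eB, mA, mB⟩ := s.top_pair hS hθ hx
  have hAK := mem_both s.fr.bK s.fr.bL hT hTK hTL hA eA
  have hBK := mem_both s.fr.bK s.fr.bL hT hTK hTL hB eB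
  have hne : A ≠ B := by
    intro hAB
    have hu : ∀ w ∈ closure (SD K L), lv θ w = T → w = A := by
      intro w hw hwT
      refine eq_of_lv_tg (hwT.trans eA.symm) (le_antisymm ?_ (mA w hw hwT))
      rw [hAB]
      exact mB w hw hwT
    obtain ⟨c', g1, g2, g3, g4, g5⟩ := oe s.fr.bK s.fr.bL hT hTK hTL hA eA hu
      (hx'.trans_le hxT)
    exact g5 (slices_above s.fr.bK s.bP s.fr.bL s.bQ s.hPK s.hQL (s.hX θ hS c') g1)
  have hlt : tg θ A < tg θ B := by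
    refine lt_of_le_of_ne (mA B hB eB) fun h => hne (eq_of_lv_tg (eA.trans eB.symm) h)
  have endA : EndA K θ A := by
    rcases ext_end s.fr.bK s.fr.bL hT hTK hTL hA eA (Or.inl mA) with h | h
    · exact h
    · exact absurd (h B hBK.1 (eB.trans eA.symm)) (not_le.2 hlt)
  have endB : EndB K θ B := by
    rcases ext_end s.fr.bK s.fr.bL hT hTK hTL hB eB (Or.inr mB) with h | h
    · exact absurd (h A hAK.1 (eA.trans eB.symm)) (not_le.2 hlt)
    · exact h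
  have la := s.fr.endA (s.io hθ) hT hTK hA eA endA
  have lb := s.fr.endB (s.io hθ) hT hTK hB eB endB
  exact ⟨T, hT, A, hA, B, hB, eA, eB, hne, hAK.1, hBK.1, endA, endB, la, lb,
    (s.fr.mem_of_le (s.io hθ) hT hTK s.fr.va' la).1, (s.fr.mem_of_le (s.io hθ) hT hTK s.fr.vb' lb).1⟩

theorem Cw.ex_unique (s : Cw K P L Q S a b Va Vb u v d ρ ρ') {θ θ' : ℝ} (hS : θ ∈ S)
    (hθ : θ ∈ Icc u v) (hS' : θ' ∈ S) (hθ' : θ' ∈ Icc u v) (hlt : θ < θ') {x : ℝ × ℝ}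
    (hx : x ∈ closure (SD K L)) (hx' : max (hs P θ) (hs Q θ) < lv θ x) {z : ℝ × ℝ}
    (hz : z ∈ closure (SD K L)) (hz' : max (hs P θ') (hs Q θ') < lv θ' z) : False := by
  obtain ⟨T, hT, A, hA, B, hB, eA, eB, hne, hAK, hBK, endA, endB, la, lb, hVa, hVb⟩ :=
    s.ex_ends hS hθ hx hx'
  obtain ⟨T', hT', A', hA', B', hB', eA', eB', hne', hAK', hBK', endA', endB', la', lb', -, -⟩ :=
    s.ex_ends hS' hθ' hz hz'
  have h1 : A = A' := s.fr.idA hVa hlt (s.io hθ).1 (s.io hθ').2 hAK hAK' endA endA'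
    (by rw [eA]; exact la) (by rw [eA']; exact la') (by rw [eA]; exact hT A' hA')
    (by rw [eA']; exact hT' A hA)
  have h2 : B = B' := s.fr.idB hVb hlt (s.io hθ).1 (s.io hθ').2 hBK hBK' endB endB'
    (by rw [eB]; exact lb) (by rw [eB']; exact lb') (by rw [eB]; exact hT B' hB')
    (by rw [eB']; exact hT' B hB)
  exact hne (eq_of_lv hlt (s.pi hθ hθ') (eA.trans eB.symm) (by rw [h1, h2, eA', eB']))

/-- the first or the last third of the window has no angle at which the symmetric difference of the outer bodies is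
seen above the inner bodies -/
theorem Cw.third (s : Cw K P L Q S a b Va Vb u v d ρ ρ') : ∃ u' v', u ≤ u' ∧ v' ≤ v ∧
    v' = u' + (v - u) / 3 ∧ ∀ θ ∈ S, θ ∈ Icc u' v' → ∀ x ∈ closure (SD K L),
      lv θ x ≤ max (hs P θ) (hs Q θ) := by
  have huv := s.uv
  by_cases h1 : ∀ θ ∈ S, θ ∈ Icc u (u + (v - u) / 3) → ∀ x ∈ closure (SD K L),
      lv θ x ≤ max (hs P θ) (hs Q θ)
  · exact ⟨u, u + (v - u) / 3, le_refl _, by linarith, rfl, h1⟩
  · refine ⟨v - (v - u) / 3, v, by linarith, le_refl _, by ring, ?_⟩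
    push Not at h1
    obtain ⟨θ, hS, hθ, x, hx, hx'⟩ := h1
    intro θ' hS' hθ' z hz
    by_contra hc
    push Not at hc
    exact s.ex_unique hS ⟨hθ.1, by linarith [hθ.2]⟩ hS' ⟨by linarith [hθ'.1], hθ'.2⟩
      (by linarith [hθ.2, hθ'.1]) hx hx' hz hc

theorem Cw.exists_z (s : Cw K P L Q S a b Va Vb u v d ρ ρ') (k : ℝ) :
    ∃ z, lv k z = max (hs P k) (hs Q k) ∧ ((z ∈ P ∧ z ∈ interior K) ∨ (z ∈ Q ∧ z ∈ interior L)) := by
  rcases le_total (hs Q k) (hs P k) with h | h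
  · obtain ⟨z, hz, e⟩ := exists_lv_eq_hs s.bP.compact (s.bP.nonempty.mono interior_subset) k
    exact ⟨z, by rw [e, max_eq_left h], Or.inl ⟨hz, s.hPK hz⟩⟩
  · obtain ⟨z, hz, e⟩ := exists_lv_eq_hs s.bQ.compact (s.bQ.nonempty.mono interior_subset) k
    exact ⟨z, by rw [e, max_eq_right h], Or.inr ⟨hz, s.hQL hz⟩⟩

theorem Cw.le_hh (s : Cw K P L Q S a b Va Vb u v d ρ ρ') (θ : ℝ) {z : ℝ × ℝ}
    (h : z ∈ P ∨ z ∈ Q) : lv θ z ≤ max (hs P θ) (hs Q θ) := by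
  rcases h with h | h
  · exact (lv_le_hs s.bP.compact θ h).trans (le_max_left _ _)
  · exact (lv_le_hs s.bQ.compact θ h).trans (le_max_right _ _)

/-- a common extreme point of `K` and `L` at `θ`, above the inner bodies at all angles of the window -/
theorem Cw.exists_V (s : Cw K P L Q S a b Va Vb u v d ρ ρ') {θ : ℝ} (hS : θ ∈ S)
    (hθ : θ ∈ Icc u v) : ∃ V, V ∈ K ∧ V ∈ L ∧ lv θ V = hs K θ ∧
      ∀ z, (z ∈ P ∨ z ∈ Q) → ∀ θ' ∈ Icc u v, lv θ' z < lv θ' V := by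
  obtain ⟨V, hV, e⟩ := exists_lv_eq_hs s.fr.bK.compact
    (s.fr.bK.nonempty.mono interior_subset) θ
  obtain ⟨c, hc1, hc2⟩ := s.clean θ hS hθ
  have hVL : V ∈ L := (agree_of_closure_le hc2 V (by rw [e]; exact hc1)).1 hV
  refine ⟨V, hV, hVL, e, fun z hz θ' hθ' => ?_⟩
  have h1 := s.depth θ hS hθ z hz
  have h2 := s.var (Or.inl hV) (s.inU hz) hθ hθ'
  have := s.dρ
  linarith

/-- between two angles of the window without visible differences the symmetric difference of the outer bodies is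
strictly below the level of the inner bodies -/
theorem Cw.strict (s : Cw K P L Q S a b Va Vb u v d ρ ρ') {u' v' : ℝ} (hu : u ≤ u')
    (hv : v' ≤ v) (hg : ∀ θ ∈ S, θ ∈ Icc u' v' → ∀ x ∈ closure (SD K L),
      lv θ x ≤ max (hs P θ) (hs Q θ))
    {j θ k : ℝ} (hj : j ∈ S) (hθ : θ ∈ S) (hk : k ∈ S) (hj' : j ∈ Icc u' v') (hk' : k ∈ Icc u' v')
    (hjθ : j < θ) (hθk : θ < k) {x : ℝ × ℝ} (hx : x ∈ closure (SD K L)) :
    lv θ x < max (hs P θ) (hs Q θ) := by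
  have hj2 : j ∈ Icc u v := ⟨hu.trans hj'.1, hj'.2.trans hv⟩
  have hk2 : k ∈ Icc u v := ⟨hu.trans hk'.1, hk'.2.trans hv⟩
  have hθ' : θ ∈ Icc u' v' := ⟨by linarith [hj'.1], by linarith [hk'.2]⟩
  have hθ2 : θ ∈ Icc u v := ⟨hu.trans hθ'.1, hθ'.2.trans hv⟩
  by_contra hlt
  rw [not_lt] at hlt
  obtain ⟨T, hTK, hTL, hxT, hT, A, hA, B, hB, eA, eB, mA, mB⟩ := s.top_pair hθ hθ2 hx
  have hTh : T = max (hs P θ) (hs Q θ) := by
    refine le_antisymm ?_ (hlt.trans hxT)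
    rw [← eA]
    exact hg θ hθ hθ' A hA
  obtain ⟨V, hVK, hVL, eV, hV⟩ := s.exists_V hθ hθ2
  have hTV : T < lv θ V := by rw [eV]; exact hTK
  have hm : ∀ χ ∈ Icc u v, max (hs P χ) (hs Q χ) ≤ lv χ V := by
    intro χ hχ
    obtain ⟨z, ez, hz⟩ := s.exists_z χ
    rw [← ez]
    exact (hV z (hz.imp And.left And.left) χ hχ).le
  rcases ext_end s.fr.bK s.fr.bL hT hTK hTL hA eA (Or.inl mA) with h | h
  · have h' : EndA L θ A := fun w hw hwA =>
      h w ((agree_ge s.fr.bK s.fr.bL hT hTK hTL (by rw [hwA, eA])).2 hw) hwA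
    obtain ⟨z, ez, hz⟩ := s.exists_z j
    have hzi : lv θ z ≤ lv θ A := by
      rw [eA, hTh]
      exact s.le_hh θ (hz.imp And.left And.left)
    have hlt2 : max (hs P j) (hs Q j) < lv j A := by
      rcases hz with hz | hz
      · exact cr_A s.fr.bK.convex hjθ (s.pi hj2 hθ2) hz.2 hVK hzi (by rw [eA]; exact hTV)
          ez.ge (hm j hj2) h
      · exact cr_A s.fr.bL.convex hjθ (s.pi hj2 hθ2) hz.2 hVL hzi (by rw [eA]; exact hTV)
          ez.ge (hm j hj2) h'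
    exact absurd (hg j hj hj' A hA) (not_le.2 hlt2)
  · have h' : EndB L θ A := fun w hw hwA =>
      h w ((agree_ge s.fr.bK s.fr.bL hT hTK hTL (by rw [hwA, eA])).2 hw) hwA
    obtain ⟨z, ez, hz⟩ := s.exists_z k
    have hzi : lv θ z ≤ lv θ A := by
      rw [eA, hTh]
      exact s.le_hh θ (hz.imp And.left And.left)
    have hlt2 : max (hs P k) (hs Q k) < lv k A := by
      rcases hz with hz | hz
      · exact cr_B s.fr.bK.convex hθk (s.pi hθ2 hk2) hz.2 hVK hzi (by rw [eA]; exact hTV)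
          ez.ge (hm k hk2) h
      · exact cr_B s.fr.bL.convex hθk (s.pi hθ2 hk2) hz.2 hVL hzi (by rw [eA]; exact hTV)
          ez.ge (hm k hk2) h'
    exact absurd (hg k hk hk' A hA) (not_le.2 hlt2)

/-- slices of the interiors of the inner bodies above the symmetric difference of the outer ones -/
theorem Cw.int_eq (s : Cw K P L Q S a b Va Vb u v d ρ ρ') {θ : ℝ} (hS : θ ∈ S) {c c' : ℝ}
    (h : ∀ w ∈ closure (SD K L), lv θ w ≤ c) (hc : c < c') :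
    volume {t : ℝ | pt θ c' t ∈ interior P} = volume {t : ℝ | pt θ c' t ∈ interior Q} :=
  vol_inner s.fr.bK s.bP s.fr.bL s.bQ s.hPK s.hQL (s.hX θ hS c') (by
    rw [slice_eq_of_closure_le h hc])

theorem Cw.hsPQ (s : Cw K P L Q S a b Va Vb u v d ρ ρ') {θ : ℝ} (hS : θ ∈ S)
    (h : ∀ x ∈ closure (SD K L), lv θ x < max (hs P θ) (hs Q θ)) : hs P θ = hs Q θ := by
  obtain ⟨c, h1, h2⟩ := exists_lt_of_compact
    (isCompact_closure_SD s.fr.bK.compact s.fr.bL.compact) (continuous_lv_right θ) h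
  exact hs_eq_of_int s.bP s.bQ h1 fun c' hc' => s.int_eq hS h2 hc'

/-- **The margin.**  Quantitative form of `Cw.strict`. -/
theorem Cw.margin (s : Cw K P L Q S a b Va Vb u v d ρ ρ')
    {j θ k ε : ℝ} (hj : j ∈ S) (hθ : θ ∈ S) (hk : k ∈ S) (hj2 : j ∈ Icc u v) (hk2 : k ∈ Icc u v)
    (hε : 0 < ε) (hε' : ε ≤ Real.pi / 2) (hjθ : j + ε ≤ θ) (hθk : θ + ε ≤ k)
    (hjθ' : θ ≤ j + Real.pi / 2) (hθk' : k ≤ θ + Real.pi / 2)
    (gj : ∀ x ∈ closure (SD K L), lv j x < max (hs P j) (hs Q j))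
    (gk : ∀ x ∈ closure (SD K L), lv k x < max (hs P k) (hs Q k))
    {x : ℝ × ℝ} (hx : x ∈ closure (SD K L)) : lv θ x ≤ hs P θ - ρ' * Real.sin ε := by
  have hθ2 : θ ∈ Icc u v := ⟨by linarith [hj2.1], by linarith [hk2.2]⟩
  obtain ⟨T, hTK, hTL, hxT, hT, A, hA, B, hB, eA, eB, mA, mB⟩ := s.top_pair hθ hθ2 hx
  refine hxT.trans ?_
  obtain ⟨V, hVK, hVL, eV, hV⟩ := s.exists_V hθ hθ2
  have hTV : T < lv θ V := by rw [eV]; exact hTK
  have ej := s.hsPQ hj gj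
  have ek := s.hsPQ hk gk
  have hρ' := s.ρ'0
  have hpi := Real.pi_pos
  rcases ext_end s.fr.bK s.fr.bL hT hTK hTL hA eA (Or.inl mA) with h | h
  · obtain ⟨z, hz, ez, hzb⟩ := s.ball j hj hj2
    have h1 := hzb (-ρ') (by rw [abs_neg, abs_of_nonneg hρ'])
    set z' := pt j (lv j z) (tg j z + -ρ') with hz'
    have l1 : lv j z' = hs P j := by rw [hz', lv_pt, ez]
    have l2 : lv θ z' = lv θ z - ρ' * Real.sin (θ - j) := by
      rw [hz', lv_pt', lv_eq θ j z]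
      ring
    have hsin : Real.sin ε ≤ Real.sin (θ - j) :=
      Real.sin_le_sin_of_le_of_le_pi_div_two (by linarith) (by linarith) (by linarith)
    have hle : ρ' * Real.sin ε ≤ ρ' * Real.sin (θ - j) := mul_le_mul_of_nonneg_left hsin hρ'
    have h2 := lv_le_hs s.bP.compact θ hz
    by_contra hc
    push Not at hc
    have h3 : hs P j < lv j A := cr_A s.fr.bK.convex (by linarith) (s.pi hj2 hθ2) h1 hVK
      (by rw [eA]; linarith) (by rw [eA]; exact hTV) l1.ge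
      (by rw [← ez]; exact (hV z (Or.inl hz) j hj2).le) h
    have h4 := gj A hA
    rw [ej, max_self, ← ej] at h4
    linarith
  · obtain ⟨z, hz, ez, hzb⟩ := s.ball k hk hk2
    have h1 := hzb ρ' (by rw [abs_of_nonneg hρ'])
    set z' := pt k (lv k z) (tg k z + ρ') with hz'
    have l1 : lv k z' = hs P k := by rw [hz', lv_pt, ez]
    have l2 : lv θ z' = lv θ z - ρ' * Real.sin (k - θ) := by
      have e2 : Real.sin (θ - k) = -Real.sin (k - θ) := by rw [← Real.sin_neg, neg_sub]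
      rw [hz', lv_pt', lv_eq θ k z, e2]
      ring
    have hsin : Real.sin ε ≤ Real.sin (k - θ) :=
      Real.sin_le_sin_of_le_of_le_pi_div_two (by linarith) (by linarith) (by linarith)
    have hle : ρ' * Real.sin ε ≤ ρ' * Real.sin (k - θ) := mul_le_mul_of_nonneg_left hsin hρ'
    have h2 := lv_le_hs s.bP.compact θ hz
    by_contra hc
    push Not at hc
    have h3 : hs P k < lv k A := cr_B s.fr.bK.convex (by linarith) (s.pi hθ2 hk2) h1 hVK
      (by rw [eA]; linarith) (by rw [eA]; exact hTV) l1.ge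
      (by rw [← ez]; exact (hV z (Or.inl hz) k hk2).le) h
    have h4 := gk A hA
    rw [ek, max_self, ← ek] at h4
    linarith

end Pool.Agent.CRW
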