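import Pool.Agent.CRW.W2
import Pool.Agent.CRW.W5
import Pool.Agent.CRW.W8
import Pool.Agent.XA.D2
import Pool.Agent.XA.E1
import Pool.Agent.XA.E4
import Pool.Agent.XA.T4
import Pool.Agent.XA.V6
import Pool.Agent.XA.Z1

/-!
# [CRW] One thick place: the outer bodies near the thick place
-/

set_option autoImplicit false
open MeasureTheory Set
open Pool.Agent.XA Pool.Agent.CRN

namespace Pool.Agent.CRW

/-- the annulus `K \ int P` has a disc of radius `δ D` in `P`, and at the angles of `[α, α + δ]` the body `P` has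
extreme points at depth `δ D` in `K`; `L \ int Q` has the same X-rays -/
structure Pt (N : ℕ) (s : ℕ → ℝ) (K P L Q : Set (ℝ × ℝ)) (x₀ : ℝ × ℝ) (α δ D ε : ℝ) : Prop where
  hN : 5 ≤ N
  hs' : Slopes N s
  bK : IsBody K
  bP : IsBody P
  bL : IsBody L
  bQ : IsBody Q
  hPK : P ⊆ interior K
  hQL : Q ⊆ interior L
  hX : ∀ (i : ℤ) (c : ℝ), volume {t : ℝ | pt (ang N s i) c t ∈ K \ interior P} =
    volume {t : ℝ | pt (ang N s i) c t ∈ L \ interior Q}
  hw : ∀ θ, hs K θ + hs K (θ + Real.pi) ≤ D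
  disc : ∀ ψ, lv ψ x₀ + δ * D ≤ hs P ψ
  disc' : ∀ θ t, |t| < δ * D / 2 → pt θ (lv θ x₀) (tg θ x₀ + t) ∈ interior P
  arc : ∀ ψ ∈ Icc α (α + δ), ∃ z ∈ P, lv ψ z = hs P ψ ∧ lv ψ z + δ * D ≤ hs K ψ ∧
    ∀ t, |t| ≤ δ * D / 2 → pt ψ (lv ψ z) (tg ψ z + t) ∈ interior K
  δ0 : 0 < δ
  ε0 : 0 < ε
  hε : ε = 2 * Real.pi / N
  n1 : ε < (δ / 2) ^ 4 / 12
  n2 : 1584000 * ε < δ ^ 2

variable {N : ℕ} {s : ℕ → ℝ} {K P L Q : Set (ℝ × ℝ)} {x₀ : ℝ × ℝ} {α δ D ε : ℝ}

theorem Pt.hN0 (h : Pt N s K P L Q x₀ α δ D ε) : 0 < N := by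
  have := h.hN
  omega

theorem Pt.mono (h : Pt N s K P L Q x₀ α δ D ε) : StrictMono (ang N s) :=
  ang_strictMono h.hN0 h.hs'

theorem Pt.gap (h : Pt N s K P L Q x₀ α δ D ε) (i : ℤ) :
    ang N s (i + 1) ≤ ang N s i + ε := by
  rw [h.hε]
  exact ang_gap h.hN0 h.hs' i

theorem Pt.gapn (h : Pt N s K P L Q x₀ α δ D ε) (i : ℤ) (k : ℕ) :
    ang N s (i + k) ≤ ang N s i + k * ε := by
  induction k with
  | zero => simp
  | succ k ih =>
    have h1 := h.gap (i + k)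
    push_cast
    rw [← add_assoc]
    linarith

/-- the next S-angle -/
theorem Pt.next (h : Pt N s K P L Q x₀ α δ D ε) (x : ℝ) :
    ∃ i, x < ang N s i ∧ ang N s i ≤ x + ε := by
  obtain ⟨i₁, hi₁⟩ := ang_above h.hN0 h.hs' x
  obtain ⟨i₀, hi₀⟩ := ang_below h.hN0 h.hs' x
  obtain ⟨i, hi, hmax⟩ := Int.exists_greatest_of_bdd (P := fun i => ang N s i ≤ x)
    ⟨i₁, fun z hz => by
      by_contra hc
      rw [not_le] at hc
      have := h.mono hc
      linarith⟩ ⟨i₀, hi₀.le⟩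
  have h1 : x < ang N s (i + 1) := by
    by_contra hc
    rw [not_lt] at hc
    have := hmax (i + 1) hc
    omega
  have h2 := h.gap i
  exact ⟨i + 1, h1, by linarith⟩

theorem Pt.near (h : Pt N s K P L Q x₀ α δ D ε) (ψ : ℝ) : ∃ i, |ang N s i - ψ| ≤ ε := by
  obtain ⟨i, h1, h2⟩ := h.next ψ
  exact ⟨i, by rw [abs_of_nonneg (by linarith)]; linarith⟩

theorem Pt.lt (h : Pt N s K P L Q x₀ α δ D ε) (ψ : ℝ) : hs P ψ < hs K ψ :=
  hs_lt_of_subset h.bK h.bP h.hPK ψ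

theorem Pt.D0 (h : Pt N s K P L Q x₀ α δ D ε) : 0 < D :=
  lt_of_lt_of_le (width_pos h.bK 0) (h.hw 0)

theorem Pt.R0 (h : Pt N s K P L Q x₀ α δ D ε) : 0 < δ * D := mul_pos h.δ0 h.D0

theorem Pt.δ1 (h : Pt N s K P L Q x₀ α δ D ε) : δ < 1 / 2 := by
  have h1 := h.hw 0
  have h2 := h.disc 0
  have h3 := h.disc (0 + Real.pi)
  have h4 := h.lt 0
  have h5 := h.lt (0 + Real.pi)
  rw [lv_add_pi] at h3
  have h6 : 2 * δ * D < 1 * D := by linarith
  have h7 := lt_of_mul_lt_mul_right h6 h.D0.le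
  linarith

theorem Pt.εδ (h : Pt N s K P L Q x₀ α δ D ε) : 792000 * 4 * ε < δ := by
  have h1 := h.n2
  have h2 := h.δ1
  have h3 : δ ^ 2 < 1 / 2 * δ := by
    rw [pow_two]
    exact mul_lt_mul_of_pos_right h2 h.δ0
  linarith

theorem Pt.top (h : Pt N s K P L Q x₀ α δ D ε) (i : ℤ) : hs K (ang N s i) = hs L (ang N s i) :=
  hs_eq_annuli h.bK h.bP h.bL h.bQ h.hPK h.hQL (h.hX i)

theorem Pt.bot (h : Pt N s K P L Q x₀ α δ D ε) (i : ℤ) :
    hs K (ang N s i + Real.pi) = hs L (ang N s i + Real.pi) := by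
  have h1 := h.top (i + N)
  rw [ang_add_N h.hN0] at h1
  exact h1

theorem Pt.dd (h : Pt N s K P L Q x₀ α δ D ε) :
    ∀ x ∈ K ∪ L, ∀ y ∈ K ∪ L, ∀ ψ, lv ψ (x - y) ≤ 2 * D :=
  spread h.bK h.bL (ε := ε) (by linarith [h.εδ, h.δ1, h.ε0]) h.hw (fun ψ => by
    obtain ⟨i, hi⟩ := h.near ψ
    exact ⟨ang N s i, hi, h.top i, h.bot i⟩)

theorem Pt.close (h : Pt N s K P L Q x₀ α δ D ε) (ψ : ℝ) : |hs K ψ - hs L ψ| ≤ 2 * D * ε :=
  hs_close h.bK h.bL h.dd (fun ψ => by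
    obtain ⟨i, hi⟩ := h.near ψ
    exact ⟨ang N s i, hi, h.top i⟩) ψ

/-- both holes are deep -/
theorem Pt.depth (h : Pt N s K P L Q x₀ α δ D ε) {i : ℤ} (hi : ang N s i ∈ Icc α (α + δ))
    {y : ℝ × ℝ} (hy : y ∈ P ∨ y ∈ Q) : lv (ang N s i) y + δ * D / 4 ≤ hs K (ang N s i) := by
  have hR := h.R0
  obtain ⟨z, hz, ez, hzK, -⟩ := h.arc _ hi
  rcases hy with hy | hy
  · have h1 := lv_le_hs h.bP.compact (ang N s i) hy
    linarith
  · have h1 := depth_transfer h.bK h.bP h.bL h.bQ (h.hPK.trans interior_subset)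
      (h.hQL.trans interior_subset) (x₀ := x₀) (ρ := δ * D / 2) (D := D) (ε := ε)
      (θ := ang N s i) (by linarith) h.ε0 (by
        have e : δ * D / 2 / D = δ / 2 := by
          have := h.D0.ne'
          field_simp
        rw [e]
        exact h.n1) (fun ψ => by
        have h2 := h.disc ψ
        have h3 := h.lt ψ
        linarith) h.close h.hw (h.top i) (by linarith) (h.disc' _) (h.hX i) y hy
    rw [h.top i]
    linarith

/-- slices of the outer bodies above the holes -/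
theorem Pt.slice (h : Pt N s K P L Q x₀ α δ D ε) {i : ℤ} (hi : ang N s i ∈ Icc α (α + δ))
    {c : ℝ} (hc : hs K (ang N s i) - δ * D / 8 ≤ c) :
    volume {t : ℝ | pt (ang N s i) c t ∈ K} = volume {t : ℝ | pt (ang N s i) c t ∈ L} := by
  have hR := h.R0
  refine outer_slice (P := interior P) (Q := interior Q) (fun y hy => ?_) (fun y hy => ?_)
    (h.hX i c)
  · have := h.depth hi (Or.inl (interior_subset hy))
    linarith
  · have := h.depth hi (Or.inr (interior_subset hy))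
    linarith

/-- equal support functions on blocks -/
theorem Pt.block (h : Pt N s K P L Q x₀ α δ D ε) {i0 : ℤ} (h0 : α ≤ ang N s i0)
    (h1 : ang N s (i0 + 164) ≤ α + δ) :
    ∀ ψ ∈ Icc (ang N s i0) (ang N s (i0 + 164)), hs K ψ = hs L ψ := by
  have hpi := Real.pi_gt_three
  have hδ1 := h.δ1
  have hmono := h.mono.monotone
  have hgap := h.gapn i0 164
  have hD := h.D0
  have hεδ := h.εδ
  push_cast at hgap
  refine lc h.hN h.hs' h.bK h.bL h.dd (i0 := i0)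
    (c := fun i => hs K (ang N s (i0 + i)) - δ * D / 8) (by linarith) ?_ ?_
  · intro i g0 g1
    have hi : ang N s (i0 + i) ∈ Icc α (α + δ) :=
      ⟨h0.trans (hmono (by omega)), (hmono (by omega)).trans h1⟩
    exact dir_of_xray h.bK h.bL (h.top _) (h.bot _) fun c hc =>
      interior_of_closed h.bK h.bL (h.top _) (h.bot _) (h.slice hi hc)
  · intro i g0 g1
    have h2 : 2 * D * (ang N s (i0 + 164) - ang N s i0) ≤ 2 * D * (164 * ε) :=
      mul_le_mul_of_nonneg_left (by linarith) (by linarith)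
    have h3 : D * (792000 * 4 * ε) < D * δ := mul_lt_mul_of_pos_left hεδ hD
    have h4 : 0 < D * ε := mul_pos hD h.ε0
    show hs K (ang N s (i0 + i)) - δ * D / 8 + 2 * D * (ang N s (i0 + 164) - ang N s i0) <
      hs K (ang N s (i0 + i))
    linarith

/-- equal support functions on the thick arc -/
theorem Pt.window (h : Pt N s K P L Q x₀ α δ D ε) {ia ib : ℤ} (h0 : α ≤ ang N s ia)
    (h1 : ang N s ib ≤ α + δ) (h2 : ia + 164 ≤ ib) :
    ∀ ψ ∈ Icc (ang N s ia) (ang N s ib), hs K ψ = hs L ψ := by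
  intro ψ hψ
  have hmono := h.mono.monotone
  obtain ⟨j, hj, hmax⟩ := Int.exists_greatest_of_bdd (P := fun i => ang N s i ≤ ψ)
    ⟨ib, fun z hz => by
      by_contra hc
      rw [not_le] at hc
      have := h.mono hc
      linarith [hψ.2]⟩ ⟨ia, hψ.1⟩
  have g1 : ψ < ang N s (j + 1) := by
    by_contra hc
    rw [not_lt] at hc
    have := hmax (j + 1) hc
    omega
  have g2 : ia ≤ j := hmax ia hψ.1
  rcases le_total j (ib - 164) with hc | hc
  · exact h.block (i0 := j) (h0.trans (hmono g2)) ((hmono (by omega)).trans h1) ψ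
      ⟨hj, g1.le.trans (hmono (by omega))⟩
  · have e : ib - 164 + 164 = ib := by ring
    exact h.block (i0 := ib - 164) (h0.trans (hmono (by omega))) (by rw [e]; exact h1) ψ
      ⟨(hmono hc).trans hj, by rw [e]; exact hψ.2⟩

end Pool.Agent.CRW
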